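import Pool.Agent.Helper79.KN.Defs

/-!
KN, block E': the numbers of the hypersurfaces `w ^ n = ∑ x k ^ a k + ...`, `n = r ^ e`, separate the characters of order
dividing `n`, up to inversion.
-/

set_option autoImplicit false

namespace Pool.Agent.Helper35.KN

open Pool.Agent.Helper79.KN

/-- sums from the numbers of the fibres -/
theorem sum_of_card {ι : Type*} (I : Finset ι) (φ ψ : ι → ℤ)
    (h : ∀ q, (I.filter fun i => φ i = q).card = (I.filter fun i => ψ i = q).card) :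
    ∑ i ∈ I, φ i = ∑ i ∈ I, ψ i := by
  have h1 : I.val.map φ = I.val.map ψ := by
    refine Multiset.ext.2 fun q => ?_
    have h2 := h q
    rw [Multiset.count_map, Multiset.count_map]
    simp only [Finset.card_def, Finset.filter_val] at h2
    simp only [eq_comm (a := q)]
    exact h2
  show (I.val.map φ).sum = (I.val.map ψ).sum
  rw [h1]

variable {m : ℕ} (a : Fin m → ℕ)

/-- the index set -/
def Idx : Finset (Fin m → ℕ) := Fintype.piFinset fun k => Finset.Ioo 0 (a k)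

/-- the product of the exponents -/
def A : ℤ := ∏ k, (a k : ℤ)

/-- the product of the other exponents -/
def B (k : Fin m) : ℤ := ∏ l ∈ Finset.univ.erase k, (a l : ℤ)

/-- `A` times the sum of the fractions -/
def b (i : Fin m → ℕ) : ℤ := ∑ k, (i k : ℤ) * B a k

theorem A_eq (k : Fin m) : A a = a k * B a k := (Finset.mul_prod_erase _ _ (Finset.mem_univ k)).symm

theorem mem_Idx {i : Fin m → ℕ} : i ∈ Idx a ↔ ∀ k, 0 < i k ∧ i k < a k := by
  simp [Idx]

theorem card_Idx : (Idx a).card = ∏ k, (a k - 1) := by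
  simp [Idx]

variable {a}

theorem A_pos (ha : ∀ k, 1 < a k) : 0 < A a :=
  Finset.prod_pos fun k _ => by have := ha k; positivity

theorem x_eq (ha : ∀ k, 1 < a k) (i : Fin m → ℕ) : ∑ k, (i k : ℚ) / a k = (b a i : ℚ) / (A a : ℚ) := by
  have hA : (A a : ℚ) ≠ 0 := by exact_mod_cast (A_pos ha).ne'
  rw [eq_div_iff hA, Finset.sum_mul, b, Int.cast_sum]
  refine Finset.sum_congr rfl fun k _ => ?_
  have h1 : (a k : ℚ) ≠ 0 := by
    have := ha k
    positivity
  rw [A_eq a k]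
  push_cast
  field_simp

theorem fl (ha : ∀ k, 1 < a k) {n s : ℕ} (hs : s < n) (i : Fin m → ℕ) :
    ⌊∑ k, (i k : ℚ) / a k + (s : ℚ) / n⌋ =
      b a i / A a + if A a * n ≤ (b a i % A a) * n + s * A a then 1 else 0 := by
  have hA := A_pos ha
  have hA' : (0 : ℚ) < A a := by exact_mod_cast hA
  have hn : (0 : ℚ) < n := by exact_mod_cast (by omega : 0 < n)
  have h0 := Int.emod_nonneg (b a i) hA.ne'
  have h1 := Int.emod_lt_of_pos (b a i) hA
  have h2 := Int.mul_ediv_add_emod (b a i) (A a)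
  set q := b a i / A a
  set c := b a i % A a
  have h3 : (b a i : ℚ) / A a = q + c / A a := by
    rw [← h2]
    push_cast
    field_simp
  have hs' : (s : ℚ) < n := by exact_mod_cast hs
  have h0' : (0 : ℚ) ≤ c := by exact_mod_cast h0
  have h1' : (c : ℚ) < A a := by exact_mod_cast h1
  have h4 : (s : ℚ) / n < 1 := (div_lt_one hn).2 hs'
  have h5 : (0 : ℚ) ≤ s / n := by positivity
  have h6 : (c : ℚ) / A a < 1 := (div_lt_one hA').2 h1'
  have h7 : (0 : ℚ) ≤ c / A a := by positivity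
  have h8 : (c : ℚ) / A a + s / n = (c * n + s * A a) / (A a * n) := by field_simp
  rw [x_eq ha, h3, add_assoc, Int.floor_intCast_add]
  congr 1
  split_ifs with h
  · rw [Int.floor_eq_iff]
    constructor
    · rw [h8, le_div_iff₀ (by positivity)]
      push_cast
      rw [one_mul]
      exact_mod_cast h
    · push_cast
      linarith
  · rw [Int.floor_eq_iff]
    constructor
    · push_cast
      positivity
    · rw [h8]
      push_cast
      rw [zero_add, div_lt_one (by positivity)]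
      push Not at h
      exact_mod_cast h

/-- the number of carries -/
def cc (a : Fin m → ℕ) (n s : ℕ) : ℕ := ((Idx a).filter fun i => A a * n ≤ (b a i % A a) * n + s * A a).card

/-- the constant -/
def M0 (a : Fin m → ℕ) : ℤ := ∑ i ∈ Idx a, b a i / A a

theorem moment (ha : ∀ k, 1 < a k) {n s : ℕ} (hs : s < n) :
    ∑ i ∈ Idx a, ⌊∑ k, (i k : ℚ) / a k + (s : ℚ) / n⌋ = M0 a + cc a n s := by
  rw [Finset.sum_congr rfl fun i _ => fl ha hs i, Finset.sum_add_distrib, M0, cc, Finset.card_filter]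
  push_cast
  rfl

theorem spec_card (n s : ℕ) (q : ℤ) :
    spec a n s q = ((Idx a).filter fun i => ⌊∑ k, (i k : ℚ) / a k + (s : ℚ) / n⌋ = q).card := rfl

theorem shift (ha : ∀ k, 1 < a k) {n s s' : ℕ} (hs : s < n) (hs' : s' < n) {w : ℤ}
    (h : ∀ q, spec a n s q = spec a n s' (w + q)) : (cc a n s : ℤ) = cc a n s' - w * (Idx a).card := by
  have h1 := sum_of_card (Idx a) (fun i => ⌊∑ k, (i k : ℚ) / a k + (s : ℚ) / n⌋)
    (fun i => ⌊∑ k, (i k : ℚ) / a k + (s' : ℚ) / n⌋ - w) (fun q => by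
      have := h q
      rw [spec_card, spec_card] at this
      rw [this]
      congr 1
      refine Finset.filter_congr fun i _ => ?_
      constructor <;> intro h <;> linarith)
  rw [Finset.sum_sub_distrib, moment ha hs, moment ha hs', Finset.sum_const, nsmul_eq_mul] at h1
  linarith

theorem refl (ha : ∀ k, 1 < a k) {n s s' : ℕ} (hs : s < n) (hs' : s' < n) {w : ℤ}
    (h : ∀ q, spec a n s q = spec a n s' (w - q)) :
    2 * M0 a + cc a n s + cc a n s' = w * (Idx a).card := by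
  have h1 := sum_of_card (Idx a) (fun i => ⌊∑ k, (i k : ℚ) / a k + (s : ℚ) / n⌋)
    (fun i => w - ⌊∑ k, (i k : ℚ) / a k + (s' : ℚ) / n⌋) (fun q => by
      have := h q
      rw [spec_card, spec_card] at this
      rw [this]
      congr 1
      refine Finset.filter_congr fun i _ => ?_
      constructor <;> intro h <;> linarith)
  rw [Finset.sum_sub_distrib, moment ha hs, moment ha hs', Finset.sum_const, nsmul_eq_mul] at h1
  linarith

/-- the residues modulo `a k` -/
theorem b_mod (i : Fin m → ℕ) (k : Fin m) : (a k : ℤ) ∣ b a i - i k * B a k := by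
  rw [b, ← Finset.add_sum_erase _ _ (Finset.mem_univ k), add_sub_cancel_left]
  refine Finset.dvd_sum fun l hl => ?_
  refine Dvd.dvd.mul_left ?_ _
  exact Finset.dvd_prod_of_mem (fun l => (a l : ℤ)) (Finset.mem_erase.2 ⟨(Finset.ne_of_mem_erase hl).symm, Finset.mem_univ k⟩)

theorem B_cop (hco : ∀ k l, k ≠ l → Nat.Coprime (a k) (a l)) (k : Fin m) : IsCoprime (a k : ℤ) (B a k) := by
  refine IsCoprime.prod_right fun l hl => ?_
  exact Nat.isCoprime_iff_coprime.2 (hco k l (Finset.ne_of_mem_erase hl).symm)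

/-- uniqueness -/
theorem b_inj (hco : ∀ k l, k ≠ l → Nat.Coprime (a k) (a l)) {i i' : Fin m → ℕ} (hi : i ∈ Idx a) (hi' : i' ∈ Idx a)
    (h : A a ∣ b a i - b a i') : i = i' := by
  funext k
  have h1 : (a k : ℤ) ∣ A a := by
    rw [A_eq a k]
    exact Dvd.intro _ rfl
  have h2 : (a k : ℤ) ∣ ((i k : ℤ) - i' k) * B a k := by
    have h3 := (h1.trans h).sub ((b_mod i k).sub (b_mod i' k))
    have h4 : ((i k : ℤ) - i' k) * B a k = b a i - b a i' - (b a i - i k * B a k - (b a i' - i' k * B a k)) := by ring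
    rw [h4]
    exact h3
  have h3 : (a k : ℤ) ∣ (i k : ℤ) - i' k := (B_cop hco k).dvd_of_dvd_mul_right h2
  have h4 := ((mem_Idx a).1 hi k)
  have h5 := ((mem_Idx a).1 hi' k)
  have h6 := Int.eq_zero_of_abs_lt_dvd h3 (by rw [abs_lt]; constructor <;> omega)
  omega

theorem b_ne (hm : 0 < m) (hco : ∀ k l, k ≠ l → Nat.Coprime (a k) (a l)) {i : Fin m → ℕ} (hi : i ∈ Idx a) :
    ¬ A a ∣ b a i := by
  intro h
  let k : Fin m := ⟨0, hm⟩
  have h1 : (a k : ℤ) ∣ A a := by
    rw [A_eq a k]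
    exact Dvd.intro _ rfl
  have h2 : (a k : ℤ) ∣ (i k : ℤ) * B a k := by
    have h3 := (h1.trans h).sub (b_mod i k)
    rwa [sub_sub_cancel] at h3
  have h3 : (a k : ℤ) ∣ (i k : ℤ) := (B_cop hco k).dvd_of_dvd_mul_right h2
  have h4 := ((mem_Idx a).1 hi k)
  have h5 := Int.le_of_dvd (by exact_mod_cast h4.1) h3
  omega

/-- existence -/
theorem exists_b (hco : ∀ k l, k ≠ l → Nat.Coprime (a k) (a l)) (ha : ∀ k, 1 < a k) {g : ℤ}
    (hg : ∀ k, IsCoprime (a k : ℤ) g) : ∃ i ∈ Idx a, A a ∣ b a i - g := by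
  have h1 : ∀ k, ∃ j : ℕ, (0 < j ∧ j < a k) ∧ (a k : ℤ) ∣ j * B a k - g := by
    intro k
    obtain ⟨x, y, hxy⟩ := B_cop hco k
    have hak : (0 : ℤ) < a k := by have := ha k; positivity
    refine ⟨((g * y) % (a k : ℤ)).toNat, ?_, ?_⟩
    · have h2 := Int.emod_nonneg (g * y) hak.ne'
      have h3 := Int.emod_lt_of_pos (g * y) hak
      have h4 : (g * y) % (a k : ℤ) ≠ 0 := by
        intro h
        have h5 : (a k : ℤ) ∣ g * y := Int.dvd_of_emod_eq_zero h
        have h6 : (a k : ℤ) ∣ y := (hg k).dvd_of_dvd_mul_left h5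
        have h7 : (a k : ℤ) ∣ 1 := by
          rw [← hxy]
          exact (Dvd.intro_left _ rfl).add (h6.mul_right _)
        have h8 := Int.le_of_dvd one_pos h7
        have := ha k
        omega
      omega
    · have h2 := Int.emod_nonneg (g * y) hak.ne'
      rw [Int.toNat_of_nonneg h2]
      have h3 := Int.mul_ediv_add_emod (g * y) (a k : ℤ)
      have h4 : (g * y) % (a k : ℤ) = g * y - a k * ((g * y) / (a k : ℤ)) := by linarith
      rw [h4]
      have h5 : (g * y - a k * ((g * y) / (a k : ℤ))) * B a k - g =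
          (a k : ℤ) * (-(g * x) - ((g * y) / (a k : ℤ)) * B a k) := by
        have h6 : g * y * B a k - g = - (g * x) * a k := by
          have : g * (x * a k + y * B a k) = g := by rw [hxy, mul_one]
          linear_combination this
        linear_combination h6
      rw [h5]
      exact Dvd.intro _ rfl
  choose i hi hi' using h1
  refine ⟨i, (mem_Idx a).2 hi, ?_⟩
  refine Finset.prod_dvd_of_coprime (fun k _ l _ hkl => Nat.isCoprime_iff_coprime.2 (hco k l hkl)) fun k _ => ?_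
  have h2 := (b_mod i k).add (hi' k)
  rwa [sub_add_sub_cancel] at h2

/-- the constant -/
theorem two_M0 (hm : 0 < m) (hco : ∀ k l, k ≠ l → Nat.Coprime (a k) (a l)) (ha : ∀ k, 1 < a k) :
    2 * M0 a = ((m : ℤ) - 1) * (Idx a).card := by
  have h1 : ∑ i ∈ Idx a, b a i / A a = ∑ i ∈ Idx a, b a (fun k => a k - i k) / A a := by
    refine Finset.sum_nbij' (fun i k => a k - i k) (fun i k => a k - i k) ?_ ?_ ?_ ?_ ?_
    · intro i hi
      rw [mem_Idx] at hi ⊢
      intro k
      have := hi k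
      constructor <;> simp <;> omega
    · intro i hi
      rw [mem_Idx] at hi ⊢
      intro k
      have := hi k
      constructor <;> simp <;> omega
    · intro i hi
      rw [mem_Idx] at hi
      funext k
      have := hi k
      simp
      omega
    · intro i hi
      rw [mem_Idx] at hi
      funext k
      have := hi k
      simp
      omega
    · intro i hi
      rw [mem_Idx] at hi
      congr 2
      funext k
      have := hi k
      simp
      omega
  have h2 : ∀ i ∈ Idx a, b a (fun k => a k - i k) / A a = (m - 1) - b a i / A a := by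
    intro i hi
    have h3 : b a (fun k => a k - i k) = m * A a - b a i := by
      rw [b, b, eq_sub_iff_add_eq, ← Finset.sum_add_distrib]
      have h4 : ∀ k, ((a k - i k : ℕ) : ℤ) * B a k + i k * B a k = A a := by
        intro k
        have := (mem_Idx a).1 hi k
        rw [A_eq a k, Nat.cast_sub this.2.le]
        ring
      rw [Finset.sum_congr rfl fun k _ => h4 k, Finset.sum_const, Finset.card_univ, Fintype.card_fin, nsmul_eq_mul]
    have hA := A_pos ha
    have h0 := Int.emod_nonneg (b a i) hA.ne'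
    have h1 := Int.emod_lt_of_pos (b a i) hA
    have h2 := Int.mul_ediv_add_emod (b a i) (A a)
    have h5 : b a i % A a ≠ 0 := fun h => b_ne hm hco hi (Int.dvd_of_emod_eq_zero h)
    rw [h3]
    have h6 : (m : ℤ) * A a - b a i = (A a - b a i % A a) + A a * ((m - 1) - b a i / A a) := by linarith
    rw [h6, Int.add_mul_ediv_left _ _ hA.ne', Int.ediv_eq_zero_of_lt (by omega) (by omega), zero_add]
  have h3 : M0 a = ((m : ℤ) - 1) * (Idx a).card - M0 a := by
    conv_lhs => rw [M0, h1, Finset.sum_congr rfl h2, Finset.sum_sub_distrib, Finset.sum_const, nsmul_eq_mul]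
    rw [M0]
    ring
  linarith


theorem isCoprime_neg_one (k : Fin m) : IsCoprime (a k : ℤ) (-1) := ⟨0, -1, by ring⟩

theorem cc_zero (ha : ∀ k, 1 < a k) {n s : ℕ} (h : A a * s < n) : cc a n s = 0 := by
  have hA := A_pos ha
  rw [cc, Finset.card_eq_zero, Finset.filter_eq_empty_iff]
  intro i _ hi
  have h1 := Int.emod_lt_of_pos (b a i) hA
  have h2 : (b a i % A a) * n ≤ (A a - 1) * n := mul_le_mul_of_nonneg_right (by omega) (by positivity)
  nlinarith

theorem cc_one (hco : ∀ k l, k ≠ l → Nat.Coprime (a k) (a l)) (ha : ∀ k, 1 < a k) {n s : ℕ} (h : n ≤ A a * s)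
    (h' : A a * s < 2 * n) (hn : 0 < n) : cc a n s = 1 := by
  have hA := A_pos ha
  obtain ⟨i0, hi0, hb0⟩ := exists_b hco ha (g := -1) isCoprime_neg_one
  have e : ∀ i, (A a * n ≤ (b a i % A a) * n + s * A a) ↔ b a i % A a = A a - 1 := by
    intro i
    have h1 := Int.emod_lt_of_pos (b a i) hA
    constructor
    · intro h2
      by_contra h3
      have h4 : (b a i % A a) * n ≤ (A a - 2) * n := mul_le_mul_of_nonneg_right (by omega) (by positivity)
      nlinarith
    · intro h2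
      rw [h2]
      nlinarith
  have e2 : ∀ i, b a i % A a = A a - 1 ↔ A a ∣ b a i - b a i0 := by
    intro i
    have h1 : (-1 : ℤ) % A a = A a - 1 := by
      rw [show (-1 : ℤ) = (A a - 1) + A a * (-1) by ring, Int.add_mul_emod_self_left]
      exact Int.emod_eq_of_lt (by omega) (by omega)
    rw [← h1]
    constructor
    · intro h2
      have h3 : A a ∣ b a i - (-1) := Int.modEq_iff_dvd.1 (show (-1 : ℤ) ≡ b a i [ZMOD A a] from h2.symm)
      have h4 := h3.sub hb0
      rwa [sub_sub_sub_cancel_right] at h4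
    · intro h2
      have h4 := h2.add hb0
      rw [sub_add_sub_cancel] at h4
      exact ((Int.modEq_iff_dvd.2 h4).symm : b a i ≡ -1 [ZMOD A a])
  rw [cc, Finset.card_eq_one]
  refine ⟨i0, ?_⟩
  ext i
  rw [Finset.mem_filter, Finset.mem_singleton, e, e2]
  constructor
  · rintro ⟨h1, h2⟩
    exact b_inj hco h1 hi0 h2
  · rintro rfl
    exact ⟨hi0, by simp⟩

theorem cc_mid (hco : ∀ k l, k ≠ l → Nat.Coprime (a k) (a l)) (ha : ∀ k, 1 < a k) (hA1 : 1 < A a) {n s : ℕ}
    (hn : IsCoprime (A a) (n : ℤ)) (h : n ≤ A a * s) (h' : A a * s ≤ (A a - 1) * n) :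
    0 < cc a n s ∧ cc a n s < (Idx a).card := by
  have hA := A_pos ha
  constructor
  · obtain ⟨i0, hi0, hb0⟩ := exists_b hco ha (g := -1) isCoprime_neg_one
    rw [cc, Finset.card_pos]
    refine ⟨i0, Finset.mem_filter.2 ⟨hi0, ?_⟩⟩
    have h1 : b a i0 % A a = A a - 1 := by
      have h2 : b a i0 % A a = (-1) % A a := ((Int.modEq_iff_dvd.2 hb0).symm : b a i0 ≡ -1 [ZMOD A a])
      rw [h2, show (-1 : ℤ) = (A a - 1) + A a * (-1) by ring, Int.add_mul_emod_self_left]
      exact Int.emod_eq_of_lt (by omega) (by omega)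
    rw [h1]
    nlinarith
  · obtain ⟨i0, hi0, hb0⟩ := exists_b hco ha (g := 1) (fun k => isCoprime_one_right)
    rw [cc]
    refine Finset.card_lt_card (Finset.filter_ssubset.2 ⟨i0, hi0, ?_⟩)
    have h1 : b a i0 % A a = 1 := by
      have h2 : b a i0 % A a = 1 % A a := ((Int.modEq_iff_dvd.2 hb0).symm : b a i0 ≡ 1 [ZMOD A a])
      rw [h2]
      exact Int.emod_eq_of_lt (by omega) (by omega)
    rw [h1]
    intro h2
    have h3 : A a * s = (A a - 1) * n := by nlinarith
    have h4 : A a ∣ (n : ℤ) := by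
      have h5 : (n : ℤ) = A a * (n - s) := by linarith
      rw [h5]
      exact Dvd.intro _ rfl
    have h5 : A a ∣ 1 := by
      obtain ⟨x, y, hxy⟩ := hn
      rw [← hxy]
      exact (Dvd.intro_left _ rfl).add (h4.mul_left _)
    have := Int.le_of_dvd one_pos h5
    omega


section arith

/-- a number in the window -/
theorem choose1 {A Q r : ℕ} (hr : 1 < r) (hA : 2 ≤ A) (hQ : 2 * A < Q) :
    ∃ v, ¬ r ∣ v ∧ Q ≤ A * v ∧ A * v < 2 * Q ∧ v < Q := by
  have h1 := Nat.div_add_mod Q A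
  have h2 := Nat.mod_lt Q (by omega : 0 < A)
  have h3 : ∃ v, ¬ r ∣ v ∧ (v = Q / A + 1 ∨ v = Q / A + 1 + 1) := by
    by_cases h : r ∣ Q / A + 1
    · refine ⟨Q / A + 1 + 1, fun h' => ?_, Or.inr rfl⟩
      have := Nat.le_of_dvd one_pos ((Nat.dvd_add_right h).1 h')
      omega
    · exact ⟨_, h, Or.inl rfl⟩
  obtain ⟨v, hv, h4⟩ := h3
  have h5 : Q ≤ A * v ∧ A * v < 2 * Q := by
    rcases h4 with rfl | rfl
    · rw [mul_add, mul_one]
      constructor <;> omega
    · rw [mul_add, mul_add, mul_one]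
      constructor <;> omega
  refine ⟨v, hv, h5.1, h5.2, ?_⟩
  by_contra h6
  have h7 := Nat.mul_le_mul_left A (not_lt.1 h6)
  have h8 := Nat.mul_le_mul_right Q hA
  omega

/-- a number in the window, for the separation -/
theorem choose2 {A Q r v : ℕ} (hA : 4 ≤ A) (hr : 2 * A < r) (hQ : 2 * A < Q) (hv : 2 ≤ v) (hvQ : 2 * v < Q) :
    ∃ t, ¬ r ∣ t ∧ A * t < Q ∧ Q ≤ A * (t * v) ∧ A * (t * v) + Q ≤ A * Q := by
  have hP0 := Nat.mul_pos (by omega : 0 < A) (by omega : 0 < v)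
  have h1 := Nat.div_add_mod Q (A * v)
  have h2 := Nat.mod_lt Q hP0
  generalize Q / (A * v) = k at h1
  generalize Q % (A * v) = ρ at h1 h2
  obtain ⟨w, rfl⟩ : ∃ w, v = w + 2 := ⟨v - 2, by omega⟩
  have hPA : A * (w + 2) = A * (w + 1) + A := by ring
  have hQw : Q * (w + 2) = Q * (w + 1) + Q := by ring
  have e1 : A * (k + 1 + 1) * (w + 2) = A * (w + 2) * k + 2 * (A * (w + 2)) := by ring
  have e1' : A * ((k + 1 + 1) * (w + 2)) = A * (w + 2) * k + 2 * (A * (w + 2)) := by ring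
  have e2 : A * (k + 1) * (w + 2) = A * (w + 2) * k + A * (w + 2) := by ring
  have e2' : A * ((k + 1) * (w + 2)) = A * (w + 2) * k + A * (w + 2) := by ring
  have h4Q : 4 * Q ≤ A * Q := Nat.mul_le_mul_right _ hA
  have hQ1 : Q ≤ Q * (w + 1) := Nat.le_mul_of_pos_right _ (by omega)
  by_cases h : r ∣ k + 1
  · have h3 : r ≤ k + 1 := Nat.le_of_dvd (by omega) h
    have h4 : 2 * A ≤ k := by omega
    have h5 : A * (w + 2) * (2 * A) ≤ A * (w + 2) * k := Nat.mul_le_mul_left _ h4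
    have h5' : A * (w + 2) * 2 ≤ A * (w + 2) * (2 * A) := Nat.mul_le_mul_left _ (by omega)
    refine ⟨k + 1 + 1, fun h' => ?_, ?_, ?_, ?_⟩
    · have := Nat.le_of_dvd one_pos ((Nat.dvd_add_right h).1 h')
      omega
    · by_contra h6
      push Not at h6
      have h7 : Q * (w + 2) ≤ A * (k + 1 + 1) * (w + 2) := Nat.mul_le_mul_right _ h6
      have h9 : Q * (w + 1) ≤ 2 * (A * (w + 2)) := by omega
      have h10 : A * (Q * (w + 1)) ≤ A * (2 * (A * (w + 2))) := Nat.mul_le_mul_left _ h9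
      have h11 : A * (2 * (A * (w + 2))) = A * (w + 2) * (2 * A) := by ring
      have h12 : 4 * (Q * (w + 1)) ≤ A * (Q * (w + 1)) := Nat.mul_le_mul_right _ hA
      omega
    · omega
    · omega
  · refine ⟨k + 1, h, ?_, ?_, ?_⟩
    · by_contra h6
      push Not at h6
      have h7 : Q * (w + 2) ≤ A * (k + 1) * (w + 2) := Nat.mul_le_mul_right _ h6
      have h9 : Q * (w + 1) ≤ A * (w + 1) + A := by omega
      have h10 : (2 * A + 1) * (w + 1) ≤ Q * (w + 1) := Nat.mul_le_mul_right _ hQ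
      have h11 : (2 * A + 1) * (w + 1) = A * (w + 1) + (A * w + A + w + 1) := by ring
      have h12 : 0 ≤ A * w := Nat.zero_le _
      omega
    · omega
    · have h9 : A * (2 * (w + 2)) ≤ A * Q := Nat.mul_le_mul_left _ hvQ.le
      have h10 : A * (2 * (w + 2)) = 2 * (A * (w + 2)) := by ring
      omega

/-- the multiples of a unit times a power of `r` -/
theorem exists_y {r f u : ℕ} (hr : r.Prime) (hf : 0 < f) (hu : ¬ r ∣ u) :
    ∃ y, Nat.Coprime y r ∧ ∀ v, (v * y * u) % r ^ f = v % r ^ f := by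
  have h1 : Nat.Coprime u (r ^ f) := (Nat.Coprime.pow_right _ ((Nat.Prime.coprime_iff_not_dvd hr).2 hu).symm)
  have h2 : 1 < r ^ f := Nat.one_lt_pow hf.ne' hr.one_lt
  obtain ⟨y, -, hy⟩ := Nat.exists_mul_mod_eq_one_of_coprime h1 h2
  refine ⟨y, ?_, fun v => ?_⟩
  · rw [Nat.coprime_comm, Nat.Prime.coprime_iff_not_dvd hr]
    intro h
    have h3 : r ∣ u * y % r ^ f := (Nat.dvd_mod_iff (dvd_pow_self r hf.ne')).2 (h.mul_left u)
    rw [hy] at h3
    exact hr.one_lt.ne' (Nat.dvd_one.1 h3)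
  · rw [mul_assoc, mul_comm y u, Nat.mul_mod, hy, mul_one, Nat.mod_mod]

theorem exists_t1 {A r e u : ℕ} (hr : r.Prime) (hA : 2 ≤ A) (hAr : 2 * A < r) (hu : 0 < u) (hun : u < r ^ e) :
    ∃ t, Nat.Coprime t r ∧ r ^ e ≤ A * (t * u % r ^ e) ∧ A * (t * u % r ^ e) < 2 * r ^ e := by
  obtain ⟨j, u0, hu0, rfl⟩ := Nat.exists_eq_pow_mul_and_not_dvd hu.ne' r hr.one_lt.ne'
  have hje : j < e := by
    by_contra h
    push Not at h
    have h1 : r ^ e ≤ r ^ j := Nat.pow_le_pow_right hr.pos h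
    have h2 : 0 < u0 := Nat.pos_of_ne_zero (by rintro rfl; simp at hu0)
    nlinarith [Nat.pow_pos hr.pos (n := j)]
  obtain ⟨f, rfl⟩ : ∃ f, e = f + j := ⟨e - j, by omega⟩
  have hf : 0 < f := by omega
  obtain ⟨y, hy, hyv⟩ := exists_y hr hf hu0
  have hQ : 2 * A < r ^ f := lt_of_lt_of_le hAr (Nat.le_self_pow hf.ne' r)
  obtain ⟨v, hv, h1, h2, h3⟩ := choose1 hr.one_lt hA hQ
  have h4 : v * y * (r ^ j * u0) % r ^ (f + j) = v * r ^ j := by
    rw [show v * y * (r ^ j * u0) = v * y * u0 * r ^ j by ring, pow_add, Nat.mul_mod_mul_right, hyv,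
      Nat.mod_eq_of_lt h3]
  refine ⟨v * y, Nat.Coprime.mul_left ((Nat.Prime.coprime_iff_not_dvd hr).2 hv).symm hy, ?_, ?_⟩
  · rw [h4, pow_add, ← mul_assoc]
    exact Nat.mul_le_mul_right _ h1
  · rw [h4, pow_add, ← mul_assoc, ← mul_assoc]
    exact Nat.mul_lt_mul_of_pos_right h2 (Nat.pow_pos hr.pos)

theorem exists_t2 {A r f j u u' : ℕ} (hr : r.Prime) (hA : 4 ≤ A) (hAr : 2 * A < r) (hf : 0 < f) (hu : ¬ r ∣ u)
    (hu' : 0 < u') (h1 : 2 * u < r ^ f) (h2 : 2 * u' < r ^ f) (hne : u ≠ u') :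
    ∃ t, Nat.Coprime t r ∧ A * (t * (r ^ j * u) % r ^ (f + j)) < r ^ (f + j) ∧
      r ^ (f + j) ≤ A * (t * (r ^ j * u') % r ^ (f + j)) ∧
      A * (t * (r ^ j * u') % r ^ (f + j)) + r ^ (f + j) ≤ A * r ^ (f + j) := by
  obtain ⟨y, hy, hyv⟩ := exists_y hr hf hu
  have hQ : 2 * A < r ^ f := lt_of_lt_of_le hAr (Nat.le_self_pow hf.ne' r)
  have hyQ : Nat.Coprime (r ^ f) y := (Nat.Coprime.pow_right f hy).symm
  have hyQ' : ((r : ZMod (r ^ f)) ^ f) = 0 := by
    have := ZMod.natCast_self (r ^ f)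
    exact_mod_cast this
  have hyu : ((y * u : ℕ) : ZMod (r ^ f)) = 1 := by
    have h3 := hyv 1
    rw [one_mul] at h3
    have h4 := (ZMod.natCast_eq_natCast_iff' (y * u) 1 (r ^ f)).2 h3
    rw [h4, Nat.cast_one]
  have hyunit : IsUnit (y : ZMod (r ^ f)) := by
    rw [Nat.cast_mul] at hyu
    exact IsUnit.of_mul_eq_one _ hyu
  set Q := r ^ f with hQdef
  set v := y * u' % Q with hv
  have hvQ : v < Q := Nat.mod_lt _ (by omega)
  have hvc : (v : ZMod Q) = (y : ZMod Q) * u' := by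
    rw [hv, ZMod.natCast_mod, Nat.cast_mul]
  have hv0 : v ≠ 0 := by
    intro h
    rw [h, Nat.cast_zero, eq_comm, hyunit.mul_right_eq_zero, ZMod.natCast_eq_zero_iff] at hvc
    have := Nat.le_of_dvd hu' hvc
    omega
  have hv1 : v ≠ 1 := by
    intro h
    rw [h, Nat.cast_one, ← hyu, Nat.cast_mul, hyunit.mul_right_inj, ZMod.natCast_eq_natCast_iff'] at hvc
    rw [Nat.mod_eq_of_lt (by omega), Nat.mod_eq_of_lt (by omega)] at hvc
    exact hne hvc
  have hv2 : v + 1 ≠ Q := by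
    intro h
    have h3 : ((v + 1 : ℕ) : ZMod Q) = 0 := by rw [h, ZMod.natCast_self]
    rw [Nat.cast_add, hvc, Nat.cast_one, ← hyu, Nat.cast_mul, ← mul_add, hyunit.mul_right_eq_zero, ← Nat.cast_add,
      ZMod.natCast_eq_zero_iff] at h3
    have := Nat.le_of_dvd (by omega) h3
    omega
  have hodd : Q % 2 = 1 := by
    have : Odd r := hr.odd_of_ne_two (by omega)
    exact Nat.odd_iff.1 (this.pow)
  have key : ∃ t, ¬ r ∣ t ∧ A * t < Q ∧ Q ≤ A * (t * v % Q) ∧ A * (t * v % Q) + Q ≤ A * Q := by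
    rcases Nat.lt_or_ge (2 * v) Q with h | h
    · obtain ⟨t, ht, h3, h4, h5⟩ := choose2 (r := r) hA hAr hQ (by omega) h
      refine ⟨t, ht, h3, ?_⟩
      have h6 : t * v < Q := by
        by_contra h7
        push Not at h7
        have := Nat.mul_le_mul_left A h7
        omega
      rw [Nat.mod_eq_of_lt h6]
      exact ⟨h4, h5⟩
    · obtain ⟨t, ht, h3, h4, h5⟩ := choose2 (r := r) (v := Q - v) hA hAr hQ (by omega) (by omega)
      refine ⟨t, ht, h3, ?_⟩
      have h6 : t * (Q - v) < Q := by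
        by_contra h7
        push Not at h7
        have := Nat.mul_le_mul_left A h7
        omega
      have ht0 : 0 < t := Nat.pos_of_ne_zero (by rintro rfl; simp at ht)
      have h8 : t * v % Q = Q - t * (Q - v) := by
        have h9 : t * v + t * (Q - v) = t * Q := by rw [← mul_add, Nat.add_sub_cancel' hvQ.le]
        have h10 : t * v = (Q - t * (Q - v)) + Q * (t - 1) := by
          obtain ⟨t', rfl⟩ : ∃ t', t = t' + 1 := ⟨t - 1, by omega⟩
          rw [Nat.add_sub_cancel]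
          have h11 : (t' + 1) * Q = Q * t' + Q := by ring
          omega
        rw [h10, Nat.add_mul_mod_self_left]
        exact Nat.mod_eq_of_lt (by
          have : 0 < t * (Q - v) := Nat.mul_pos ht0 (by omega)
          omega)
      rw [h8]
      have h9 : A * (Q - t * (Q - v)) + A * (t * (Q - v)) = A * Q := by
        rw [← mul_add, Nat.sub_add_cancel h6.le]
      omega
  obtain ⟨t, ht, h3, h4, h5⟩ := key
  have htc : Nat.Coprime t r := ((Nat.Prime.coprime_iff_not_dvd hr).2 ht).symm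
  have hrj : 0 < r ^ j := Nat.pow_pos hr.pos
  have ht' : t < Q := by nlinarith
  have e1 : t * y * (r ^ j * u) % r ^ (f + j) = t * r ^ j := by
    rw [show t * y * (r ^ j * u) = t * y * u * r ^ j by ring, pow_add, Nat.mul_mod_mul_right, hyv,
      Nat.mod_eq_of_lt ht']
  have e2 : t * y * (r ^ j * u') % r ^ (f + j) = (t * v % Q) * r ^ j := by
    rw [show t * y * (r ^ j * u') = t * (y * u') * r ^ j by ring, pow_add, Nat.mul_mod_mul_right, hv,
      Nat.mul_mod_mod]
  refine ⟨t * y, Nat.Coprime.mul_left htc hy, ?_, ?_, ?_⟩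
  · rw [e1, pow_add, ← mul_assoc]
    exact Nat.mul_lt_mul_of_pos_right h3 hrj
  · rw [e2, pow_add, ← mul_assoc]
    exact Nat.mul_le_mul_right _ h4
  · rw [e2, pow_add, ← mul_assoc, ← mul_assoc, ← add_mul]
    exact Nat.mul_le_mul_right _ h5

end arith

theorem A_cast : A a = ((∏ k, a k : ℕ) : ℤ) := by
  rw [A, Nat.cast_prod]

theorem asym_aux (hm : 0 < m) (hco : ∀ k l, k ≠ l → Nat.Coprime (a k) (a l)) (ha : ∀ k, 1 < a k)
    (hN : 2 < ∏ k, (a k - 1)) {n s : ℕ} (hs : s < n) (h : n ≤ (∏ k, a k) * s) (h' : (∏ k, a k) * s < 2 * n) (w : ℤ) :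
    ∃ q, spec a n s q ≠ spec a n s (w - q) := by
  by_contra hc
  push Not at hc
  have h1 := refl ha hs hs hc
  have h2 : cc a n s = 1 := by
    refine cc_one hco ha ?_ ?_ (by omega)
    · rw [A_cast]
      exact_mod_cast h
    · rw [A_cast]
      exact_mod_cast h'
  rw [two_M0 hm hco ha, h2, card_Idx] at h1
  have h3 : ((∏ k, (a k - 1) : ℕ) : ℤ) ∣ 2 := ⟨w - (m - 1), by push_cast at h1 ⊢; linarith⟩
  have h4 := Int.le_of_dvd (by norm_num) h3
  omega

theorem sep_aux (hm : 0 < m) (hco : ∀ k l, k ≠ l → Nat.Coprime (a k) (a l)) (ha : ∀ k, 1 < a k)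
    {n s s' : ℕ} (hs : s < n) (hs' : s' < n)
    (hcc : (cc a n s = 0 ∧ 0 < cc a n s' ∧ cc a n s' < (Idx a).card) ∨
      (cc a n s' = 0 ∧ 0 < cc a n s ∧ cc a n s < (Idx a).card)) (w : ℤ) :
    (∃ q, spec a n s q ≠ spec a n s' (w + q)) ∧ ∃ q, spec a n s q ≠ spec a n s' (w - q) := by
  have key : ∀ (c N : ℕ) (z : ℤ), 0 < c → c < N → (c : ℤ) ≠ z * N := by
    intro c N z h1 h2 h3
    have h4 : (N : ℤ) ∣ c := ⟨z, by rw [h3, mul_comm]⟩
    have h5 := Int.le_of_dvd (by exact_mod_cast h1) h4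
    omega
  constructor
  · by_contra hc
    push Not at hc
    have h1 := shift ha hs hs' hc
    rcases hcc with ⟨h2, h3, h4⟩ | ⟨h2, h3, h4⟩
    · exact key _ _ w h3 h4 (by rw [h2] at h1; push_cast at h1; linarith)
    · exact key _ _ (-w) h3 h4 (by rw [h2] at h1; push_cast at h1; linarith)
  · by_contra hc
    push Not at hc
    have h1 := refl ha hs hs' hc
    rw [two_M0 hm hco ha] at h1
    rcases hcc with ⟨h2, h3, h4⟩ | ⟨h2, h3, h4⟩
    · exact key _ _ (w - (m - 1)) h3 h4 (by rw [h2] at h1; push_cast at h1; linarith)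
    · exact key _ _ (w - (m - 1)) h3 h4 (by rw [h2] at h1; push_cast at h1; linarith)

theorem sep_aux' (hco : ∀ k l, k ≠ l → Nat.Coprime (a k) (a l)) (ha : ∀ k, 1 < a k)
    (hA4 : 4 ≤ ∏ k, a k) {r e : ℕ} (hr : r.Prime) (hAr : 2 * ∏ k, a k < r) {s s' : ℕ}
    (h1 : (∏ k, a k) * s < r ^ e) (h2 : r ^ e ≤ (∏ k, a k) * s') (h3 : (∏ k, a k) * s' + r ^ e ≤ (∏ k, a k) * r ^ e) :
    cc a (r ^ e) s = 0 ∧ 0 < cc a (r ^ e) s' ∧ cc a (r ^ e) s' < (Idx a).card := by
  refine ⟨cc_zero ha ?_, cc_mid hco ha ?_ ?_ ?_ ?_⟩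
  · rw [A_cast]
    exact_mod_cast h1
  · rw [A_cast]
    exact_mod_cast (by omega : 1 < ∏ k, a k)
  · rw [A_cast, Nat.isCoprime_iff_coprime]
    refine Nat.Coprime.pow_right _ ?_
    rw [Nat.coprime_comm, Nat.Prime.coprime_iff_not_dvd hr]
    intro h
    have := Nat.le_of_dvd (by omega) h
    omega
  · rw [A_cast]
    exact_mod_cast h2
  · rw [A_cast]
    have h4 : (((∏ k, a k) * s' + r ^ e : ℕ) : ℤ) ≤ (((∏ k, a k) * r ^ e : ℕ) : ℤ) := by exact_mod_cast h3
    push_cast at h4 ⊢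
    linarith

end Pool.Agent.Helper35.KN

namespace Pool.Agent.Helper79.KN

open Pool.Agent.Helper35.KN

/-- E' -/
theorem isSep_spec (m : ℕ) (a : Fin m → ℕ) (r e : ℕ) (hr : r.Prime) (he : 0 < e)
    (hco : ∀ k l, k ≠ l → Nat.Coprime (a k) (a l)) (ha : ∀ k, 1 < a k) (hN : 2 < ∏ k, (a k - 1))
    (hA : 2 * ∏ k, a k < r) :
    IsSep (X := {u : ℕ // 0 < u ∧ 2 * u < r ^ e}) (T := {t : ℕ // Nat.Coprime t r})
      fun t u q => spec a (r ^ e) (t.1 * u.1 % r ^ e) q := by
  have hm : 0 < m := by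
    rcases Nat.eq_zero_or_pos m with rfl | h
    · simp at hN
    · exact h
  have hA4 : 4 ≤ ∏ k, a k := by
    have : ∏ k, (a k - 1) < ∏ k, a k := by
      haveI : Nonempty (Fin m) := ⟨⟨0, hm⟩⟩
      refine Finset.prod_lt_prod_of_nonempty (fun k _ => ?_) (fun k _ => ?_) Finset.univ_nonempty
      · have := ha k
        omega
      · have := ha k
        omega
    omega
  have hn : 0 < r ^ e := Nat.pow_pos hr.pos
  constructor
  · rintro ⟨u, hu, hu2⟩
    obtain ⟨t, ht, h1, h2⟩ := exists_t1 (A := ∏ k, a k) (e := e) (u := u) hr (by omega) hA hu (by omega)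
    exact ⟨⟨t, ht⟩, asym_aux hm hco ha hN (Nat.mod_lt _ hn) h1 h2⟩
  · rintro ⟨u, hu, hu2⟩ ⟨u', hu', hu2'⟩ hne
    have hne' : u ≠ u' := fun h => hne (Subtype.ext h)
    have key : ∀ u u' : ℕ, 0 < u → 2 * u < r ^ e → 0 < u' → 2 * u' < r ^ e → u ≠ u' → ∀ j u0 u1 : ℕ, ¬ r ∣ u0 →
        u = r ^ j * u0 → u' = r ^ j * u1 → ∃ t : ℕ, Nat.Coprime t r ∧
          cc a (r ^ e) (t * u % r ^ e) = 0 ∧ 0 < cc a (r ^ e) (t * u' % r ^ e) ∧
            cc a (r ^ e) (t * u' % r ^ e) < (Idx a).card := by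
      rintro u u' h1 h2 h3 h4 h5 j u0 u1 h6 rfl rfl
      have hrj : 0 < r ^ j := Nat.pow_pos hr.pos
      have hu0 : 0 < u0 := Nat.pos_of_ne_zero (by rintro rfl; simp at h6)
      have hje : j < e := by
        by_contra h
        push Not at h
        have h7 : r ^ e ≤ r ^ j := Nat.pow_le_pow_right hr.pos h
        nlinarith
      obtain ⟨f, rfl⟩ : ∃ f, e = f + j := ⟨e - j, by omega⟩
      have e1 : ∀ x, 2 * (r ^ j * x) < r ^ (f + j) → 2 * x < r ^ f := by
        intro x hx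
        rw [pow_add, show 2 * (r ^ j * x) = (2 * x) * r ^ j by ring] at hx
        exact Nat.lt_of_mul_lt_mul_right hx
      obtain ⟨t, ht, h7, h8, h9⟩ := exists_t2 (A := ∏ k, a k) (j := j) (u := u0) (u' := u1) hr hA4 hA
        (by omega : 0 < f) h6 (Nat.pos_of_ne_zero (by rintro rfl; simp at h3)) (e1 _ h2) (e1 _ h4)
        (by rintro rfl; exact h5 rfl)
      exact ⟨t, ht, sep_aux' hco ha hA4 hr hA h7 h8 h9⟩
    obtain ⟨j, u0, hu0, hj⟩ := Nat.exists_eq_pow_mul_and_not_dvd hu.ne' r hr.one_lt.ne'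
    obtain ⟨j', u0', hu0', hj'⟩ := Nat.exists_eq_pow_mul_and_not_dvd hu'.ne' r hr.one_lt.ne'
    rcases le_total j j' with h | h
    · obtain ⟨i, rfl⟩ := Nat.exists_eq_add_of_le h
      obtain ⟨t, ht, h1⟩ := key u u' hu hu2 hu' hu2' hne' j u0 (r ^ i * u0') hu0 hj (by rw [hj', pow_add, mul_assoc])
      exact ⟨⟨t, ht⟩, sep_aux hm hco ha (Nat.mod_lt _ hn) (Nat.mod_lt _ hn) (Or.inl h1)⟩
    · obtain ⟨i, rfl⟩ := Nat.exists_eq_add_of_le h
      obtain ⟨t, ht, h1⟩ := key u' u hu' hu2' hu hu2 hne'.symm j' u0' (r ^ i * u0) hu0' hj'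
        (by rw [hj, pow_add, mul_assoc])
      exact ⟨⟨t, ht⟩, sep_aux hm hco ha (Nat.mod_lt _ hn) (Nat.mod_lt _ hn) (Or.inr h1)⟩

end Pool.Agent.Helper79.KN
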