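import Pool.Agent.Helper15.GD.Base
import Pool.Agent.Helper40.CX.H83QF.Fin

/-!
# Coniveau on the powers of a variety: the axioms

`H(K)` is the part of weight two of the second cohomology of the generic point of a variety `X` over
`Ω` with function field `K`, that is `H²(X)` modulo the classes of divisors. It is identified with
the transcendental part of `H²(X)`, the orthogonal complement of the classes of curves, which depends
only on `K` and is functorial for correspondences. So the `n`-th tensor power of `H(K)` is contained in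
`H^{2n}(X ^ n)`, and `sup K n ν` is the subspace of the classes which are supported on closed
subsets of `X ^ n` of codimension `ν`.
-/

set_option autoImplicit false

namespace Pool.Agent.Helper35.KN

open IntermediateField TensorProduct CategoryTheory Pool.Agent.Helper15.GD
open CX.VC CX.Pool.Agent.Helper83.QF

section

variable {L : Type} [Field L]

/-- the `n`-th tensor power -/
noncomputable def tpow (V : ModuleCat.{0} L) (n : ℕ) : ModuleCat.{0} L :=
  ModuleCat.of L (⨂[L] _ : Fin n, V)

/-- the product of `n` elements, in the `n`-th tensor power -/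
noncomputable def tens {V : ModuleCat.{0} L} {n : ℕ} (z : Fin n → V) : tpow V n :=
  PiTensorProduct.tprod L z

/-- the product of `n` homomorphisms -/
noncomputable def tmap {V V' : ModuleCat.{0} L} {n : ℕ} (ψ : Fin n → (V ⟶ V')) :
    tpow V n ⟶ tpow V' n :=
  ModuleCat.ofHom (PiTensorProduct.map fun i => (ψ i).hom)

/-- the product of two tensors, that is, the multiplication of the tensor algebra -/
noncomputable def tmul {V : ModuleCat.{0} L} {a b : ℕ} (s : tpow V a) (t : tpow V b) :
    tpow V (a + b) :=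
  @GradedMonoid.GMul.mul ℕ (fun i => ⨂[L]^i V) _ _ a b s t

/-- permutation of the factors -/
noncomputable def tperm {V : ModuleCat.{0} L} {n : ℕ} (σ : Equiv.Perm (Fin n)) (t : tpow V n) :
    tpow V n :=
  PiTensorProduct.reindex L (fun _ => V) σ t

/-- the difference of the products of the `z i` and of the `z' i` is in `S` -/
def Cong {V : ModuleCat.{0} L} {n : ℕ} (S : Submodule L (tpow V n)) (z z' : Fin n → V) : Prop :=
  tens z - tens z' ∈ S

/-- `a` is an eigenvalue of `φ`, with an eigenvector in `P`. -/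
def IsEigenvalue {V : ModuleCat.{0} L} (φ : V ⟶ V) (P : Submodule L V) (a : L) : Prop :=
  ∃ x ∈ P, x ≠ 0 ∧ φ.hom x = a • x

/-- `x` is a generalised eigenvector of `φ`. -/
def IsGen {V : ModuleCat.{0} L} (φ : V ⟶ V) (a : L) (x : V) : Prop :=
  x ∈ Module.End.maxGenEigenspace φ.hom a

/-- `P` is stable under `φ` -/
def IsStable {V : ModuleCat.{0} L} (φ : V ⟶ V) (P : Submodule L V) : Prop :=
  ∀ x ∈ P, φ.hom x ∈ P

/-- For every eigenvalue `a` of `φ` there is a valuation ring `R` such that `a` is a unit of `R`, `q`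
is not a unit, and `b / q` is a unit for the other eigenvalues `b`, except for `q ^ 2 / a`. -/
def Ordinary {V : ModuleCat.{0} L} (φ : V ⟶ V) (q : L) : Prop :=
  ∀ a : L, IsEigenvalue φ ⊤ a → ∃ R : ValuationSubring L, a ≠ 0 ∧ a ∈ R ∧ a⁻¹ ∈ R ∧ q ≠ 0 ∧
    q ∈ R ∧ q⁻¹ ∉ R ∧ ∀ b : L, IsEigenvalue φ ⊤ b → b = a ∨ b * a = q ^ 2 ∨
      b / q ∈ R ∧ q / b ∈ R

end

/-- The vector spaces `H(K)`, the homomorphisms induced by homomorphisms of fields, the homomorphisms
`H(K) → H(K')` given by correspondences, and the classes in the tensor powers of `H(K)` which are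
supported in codimension `ν`. -/
structure PowCoh (Ω L : Type) [Field Ω] [Field L] where
  H : Ext Ω → ModuleCat.{0} L
  map : ∀ {K K' : Ext Ω}, K.Hom K' → (H K ⟶ H K')
  corr : ∀ K K' : Ext Ω, Set (H K ⟶ H K')
  sup : ∀ (K : Ext Ω) (n _ν : ℕ), Submodule L (tpow (H K) n)

variable {Ω L : Type} [Field Ω] [Field L]

/-- finiteness -/
def PowCoh.Finite (T : PowCoh Ω L) : Prop :=
  ∀ K : Ext Ω, K.FG → FiniteDimensional L (T.H K)

/-- The homomorphisms induced by homomorphisms of fields are given by correspondences. -/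
def PowCoh.Graph (T : PowCoh Ω L) : Prop :=
  ∀ (K K' : Ext Ω) (g : K.Hom K'), T.map g ∈ T.corr K K'

/-- If `K'` is algebraic over `K`, the homomorphism `H(K) → H(K')` has a left inverse which is given by
a correspondence, the trace divided by the degree. -/
def PowCoh.Trace (T : PowCoh Ω L) : Prop :=
  ∀ (K K' : Ext Ω) (g : K.Hom K'), g.IsAlgebraic →
    ∃ ψ ∈ T.corr K' K, T.map g ≫ ψ = 𝟙 (T.H K)

/-- The identity is given by a correspondence. -/
def PowCoh.Identity (T : PowCoh Ω L) : Prop :=
  ∀ K : Ext Ω, 𝟙 (T.H K) ∈ T.corr K K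

/-- Products of correspondences preserve the coniveau. -/
def PowCoh.Stable (T : PowCoh Ω L) : Prop :=
  ∀ (K K' : Ext Ω) (n ν : ℕ) (ψ : Fin n → (T.H K ⟶ T.H K')), (∀ i, ψ i ∈ T.corr K K') →
    ∀ t ∈ T.sup K n ν, (tmap ψ).hom t ∈ T.sup K' n ν

/-- codimension zero, exterior products, permutations of the factors -/
structure PowCoh.Products (T : PowCoh Ω L) : Prop where
  zero : ∀ (K : Ext Ω) (n : ℕ) (t : tpow (T.H K) n), t ∈ T.sup K n 0
  mul : ∀ (K : Ext Ω) (a b μ ν : ℕ), ∀ s ∈ T.sup K a μ, ∀ t ∈ T.sup K b ν,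
    tmul s t ∈ T.sup K (a + b) (μ + ν)
  perm : ∀ (K : Ext Ω) (n ν : ℕ) (σ : Equiv.Perm (Fin n)), ∀ t ∈ T.sup K n ν,
    tperm σ t ∈ T.sup K n ν

/-- The surface over the extension field `Ω'` of `Ω` given by the same equation. -/
noncomputable def extend (Q : Qua Ω) (Ω' : Type) [Field Ω'] [Algebra Ω Ω'] : Qua Ω' where
  N := Q.N
  e := Q.e
  a i := MvPolynomial.map (algebraMap Ω Ω') (Q.a i)
  hom i h := (Q.hom i h).map _
  zero i h := by rw [Q.zero i h, map_zero]

/-- The conjecture of Voisin for the surface: if `a 0` and `a 1` are zero-cycles of degree zero, then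
a positive multiple of `a 0 × a 1 - a 1 × a 0` is rationally equivalent to zero. -/
def Voisin {Ω : Type} [Field Ω] [IsAlgClosed Ω] [CX.Good Ω] (Q : Qua Ω) : Prop :=
  ∀ a : Fin 2 → Q.surface.Cycles, (∀ i, (a i).sum (fun _ c => c) = 0) →
    ∃ M : ℕ, 0 < M ∧ M • (extProd ![a 0, a 1] - extProd ![a 1, a 0]) ∈ (Q.surface.pow 2).Rat

/-- `K` is the function field of the surface: it is generated by `u, x, w` with
`w² = a₀(u) x⁴ + a₁(u) x³ + a₂(u) x² + a₃(u) x + a₄(u)`, where `u` and `x` are algebraically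
independent. -/
def IsFieldOf (Q : Qua Ω) (K : Ext Ω) : Prop :=
  ∃ u x w : K, AlgebraicIndependent Ω ![u, x] ∧ w ^ 2 = qu (cf Q ![u, 1]) ![x, 1] ∧
    adjoin Ω {u, x, w} = ⊤

/-- Bloch and Srinivas: if the conjecture of Voisin is true for the surface over all algebraically
closed extension fields of `Ω`, then the classes `x ⊗ y - y ⊗ x` are supported on divisors. -/
def PowCoh.BlochSrinivas [IsAlgClosed Ω] [CX.Good Ω] (T : PowCoh Ω L) : Prop :=
  ∀ (Q : Qua Ω) (K : Ext Ω), IsFieldOf Q K →
    (∀ (Ω' : Type) [Field Ω'] [Algebra Ω Ω'] [IsAlgClosed Ω'] [CX.Good Ω'],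
      Voisin (extend Q Ω')) →
    ∀ x y : T.H K, Cong (T.sup K 2 1) ![x, y] ![y, x]

/-- The axioms. -/
structure PowCoh.IsTheory [IsAlgClosed Ω] [CX.Good Ω] (T : PowCoh Ω L) : Prop where
  finite : T.Finite
  graph : T.Graph
  trace : T.Trace
  identity : T.Identity
  stable : T.Stable
  products : T.Products
  blochSrinivas : T.BlochSrinivas

/-- `K` is algebraic over `K0`, or a correspondence maps `H(K)` onto `H(K0)`. -/
def PowCoh.Linked (T : PowCoh Ω L) (K K0 : Ext Ω) : Prop :=
  (∃ g : K0.Hom K, g.IsAlgebraic) ∨ ∃ ψ ∈ T.corr K K0, Function.Surjective ψ.hom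

/-- The products of generalised eigenvectors of `φ` for `a` and `q ^ 2 / a` are supported in
codimension two. If `φ` is Frobenius, these are Tate classes on the square of the surface. -/
def PowCoh.IsTate (T : PowCoh Ω L) {K : Ext Ω} (φ : T.H K ⟶ T.H K) (q : L) : Prop :=
  ∀ (a b : L) (x y : T.H K), a * b = q ^ 2 → IsGen φ a x → IsGen φ b y →
    tens ![x, y] ∈ T.sup K 2 2

end Pool.Agent.Helper35.KN
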