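import Pool.Agent.Helper35.KN.Nu

/-! Project K3 powers, higher coniveau. Ordinary endomorphisms. -/

set_option autoImplicit false

namespace Pool.Agent.Helper35.KN

open TensorProduct Pool.Agent.Helper35.KS

variable {L V : Type*} [Field L] [AddCommGroup V] [Module L V]

/-- a permutation with given first two values -/
theorem exists_front {n : ℕ} (i j : Fin (2 + n)) (hij : i ≠ j) :
    ∃ σ : Equiv.Perm (Fin (2 + n)), σ (Fin.castAdd n 0) = i ∧ σ (Fin.castAdd n 1) = j := by
  have h01 : (Fin.castAdd n 0 : Fin (2 + n)) ≠ Fin.castAdd n 1 := by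
    intro h
    have := congrArg Fin.val h
    simp at this
  have h1 : Equiv.swap (Fin.castAdd n 0 : Fin (2 + n)) i j ≠ Fin.castAdd n 0 := by
    intro h
    have h2 := congrArg (Equiv.swap (Fin.castAdd n 0 : Fin (2 + n)) i) h
    rw [Equiv.swap_apply_self, Equiv.swap_apply_left] at h2
    exact hij h2.symm
  refine ⟨Equiv.swap (Fin.castAdd n 0) i * Equiv.swap (Fin.castAdd n 1)
    (Equiv.swap (Fin.castAdd n 0 : Fin (2 + n)) i j), ?_, ?_⟩
  · rw [Equiv.Perm.mul_apply, Equiv.swap_apply_of_ne_of_ne h01 h1.symm, Equiv.swap_apply_left]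
  · rw [Equiv.Perm.mul_apply, Equiv.swap_apply_left, Equiv.swap_apply_self]

/-- two factors in front -/
theorem Closed.front {S : ∀ n : ℕ, ℕ → Submodule L (⨂[L] _ : Fin n, V)} (hS : Closed S)
    {n μ ν : ℕ} (w : Fin (2 + n) → V)
    (h1 : PiTensorProduct.tprod L ![w (Fin.castAdd n 0), w (Fin.castAdd n 1)] ∈ S 2 μ)
    (h2 : PiTensorProduct.tprod L (fun i => w (Fin.natAdd 2 i)) ∈ S n ν) :
    PiTensorProduct.tprod L w ∈ S (2 + n) (μ + ν) := by
  have h3 := hS.mul 2 n μ ν _ _ h1 h2
  rw [mulT_tprod] at h3
  have e : Fin.append ![w (Fin.castAdd n 0), w (Fin.castAdd n 1)]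
      (fun i => w (Fin.natAdd 2 i)) = w := by
    conv_rhs => rw [← append_eq w]
    congr 1
    funext i
    fin_cases i <;> rfl
  rwa [e] at h3

theorem prod_front {n : ℕ} (a : Fin (2 + n) → L) :
    ∏ i, a i = a (Fin.castAdd n 0) * a (Fin.castAdd n 1) * ∏ i : Fin n, a (Fin.natAdd 2 i) := by
  rw [Fin.prod_univ_add]
  congr 1
  rw [Fin.prod_univ_two]

/-- For every eigenvalue `a` there is a valuation ring in which `a` is a unit, `q` is not, and `b / q`
is a unit for the other eigenvalues `b`, except for `q ^ 2 / a`. -/
def Ord (F : Module.End L V) (q : L) : Prop :=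
  ∀ a : L, F.HasEigenvalue a → ∃ R : ValuationSubring L, a ≠ 0 ∧ a ∈ R ∧ a⁻¹ ∈ R ∧ q ≠ 0 ∧
    q ∈ R ∧ q⁻¹ ∉ R ∧ ∀ b : L, F.HasEigenvalue b → b = a ∨ b * a = q ^ 2 ∨
      b / q ∈ R ∧ q / b ∈ R

theorem Closed.tprod_mem_ord {S : ∀ n : ℕ, ℕ → Submodule L (⨂[L] _ : Fin n, V)} (hS : Closed S)
    (F : Module.End L V) (q : L) (hq : Ord F q)
    (hpair : ∀ (a b : L) (x y : V), a ≠ b → x ∈ F.maxGenEigenspace a →
      y ∈ F.maxGenEigenspace b → PiTensorProduct.tprod L ![x, y] ∈ S 2 1)
    (hT : ∀ (a b : L) (x y : V), a * b = q ^ 2 → x ∈ F.maxGenEigenspace a →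
      y ∈ F.maxGenEigenspace b → PiTensorProduct.tprod L ![x, y] ∈ S 2 2) (n : ℕ) :
    ∀ (ν : ℕ) (_ : 2 * ν ≤ n) (a : Fin n → L) (z : Fin n → V)
      (_ : ∀ i, z i ∈ F.maxGenEigenspace (a i)) (_ : ∀ i, F.HasEigenvalue (a i))
      (_ : IsIntegral ℤ ((∏ i, a i) / q ^ ν)), PiTensorProduct.tprod L z ∈ S n ν := by
  induction n using Nat.strong_induction_on with
  | h n ih =>
    intro ν hν a z hz ha hint
    by_cases hA : ∀ b : L, {i | a i = b}.ncard + ν ≤ n
    · exact hS.tprod_mem F hpair hν a z hz hA
    · simp only [not_forall, not_le] at hA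
      obtain ⟨e, he⟩ := hA
      have hpos : 0 < {i | a i = e}.ncard := by omega
      obtain ⟨i, hi⟩ := (Set.ncard_pos (Set.toFinite _)).1 hpos
      have hi' : a i = e := hi
      obtain ⟨R, he0, heR, heR', hq0, hqR, hqR', hb⟩ := hq e (hi' ▸ ha i)
      -- a factor with the dual eigenvalue
      have hj : ∃ j, a j * e = q ^ 2 := by
        by_contra hno
        simp only [not_exists] at hno
        have hu : ∀ k, a k ≠ e → a k / q ∈ R ∧ q / a k ∈ R := by
          intro k hk
          rcases hb (a k) (ha k) with h1 | h1 | h1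
          · exact absurd h1 hk
          · exact absurd h1 (hno k)
          · exact h1
        classical
        -- the inverse of the product
        have h1 : q ^ ((Finset.univ.filter fun k => a k ≠ e).card) / ∏ k, a k ∈ R := by
          have h2 : q ^ ((Finset.univ.filter fun k => a k ≠ e).card) / ∏ k, a k =
              ∏ k, (if a k ≠ e then q / a k else (a k)⁻¹) := by
            have h3 : ∀ k, (if a k ≠ e then q / a k else (a k)⁻¹) =
                (if a k ≠ e then q else 1) * (a k)⁻¹ := by
              intro k
              split_ifs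
              · rw [div_eq_mul_inv]
              · rw [one_mul]
            rw [Finset.prod_congr rfl fun k _ => h3 k, Finset.prod_mul_distrib,
              Finset.prod_inv_distrib, div_eq_mul_inv, Finset.prod_ite, Finset.prod_const,
              Finset.prod_const_one, mul_one]
          rw [h2]
          refine prod_mem fun k _ => ?_
          split_ifs with hk
          · exact (hu k hk).2
          · rw [not_not.1 hk]
            exact heR'
        have h2 : (∏ k, a k) / q ^ ν ∈ R := by
          have h3 : IsIntegral R ((∏ k, a k) / q ^ ν) := hint.tower_top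
          obtain ⟨r, hr⟩ := (IsIntegrallyClosed.isIntegral_iff (R := R) (K := L)).1 h3
          rw [← hr]
          exact r.2
        have h3 := R.mul_mem _ _ h1 h2
        have hne : ∏ k, a k ≠ 0 := by
          refine Finset.prod_ne_zero_iff.2 fun k _ hk => ?_
          rcases eq_or_ne (a k) e with h4 | h4
          · exact he0 (h4 ▸ hk)
          · have h5 := (hu k h4).2
            obtain ⟨R', ha0, -⟩ := hq (a k) (ha k)
            exact ha0 hk
        rw [div_mul_div_cancel₀ hne] at h3
        have hcard : (Finset.univ.filter fun k => a k ≠ e).card + {i | a i = e}.ncard = n := by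
          have h4 : {i | a i = e}.ncard = (Finset.univ.filter fun k => a k = e).card := by
            rw [← Set.ncard_coe_finset]
            congr 1
            ext k
            simp
          rw [h4, add_comm]
          have h5 := Finset.card_filter_add_card_filter_not (s := (Finset.univ : Finset (Fin n)))
            (fun k => a k = e)
          rw [Finset.card_univ, Fintype.card_fin] at h5
          exact h5
        set r := (Finset.univ.filter fun k => a k ≠ e).card with hr
        have hlt : r < ν := by omega
        obtain ⟨d, rfl⟩ := Nat.exists_eq_add_of_lt hlt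
        have h4 : q ^ r / q ^ (r + d + 1) = q⁻¹ ^ (d + 1) := by
          rw [add_assoc, pow_add, ← div_div, div_self (pow_ne_zero _ hq0), one_div, inv_pow]
        rw [h4] at h3
        apply hqR'
        have h5 := R.mul_mem _ _ h3 (pow_mem hqR d)
        have h6 : q⁻¹ ^ (d + 1) * q ^ d = q⁻¹ := by
          rw [pow_succ, mul_right_comm, ← mul_pow, inv_mul_cancel₀ hq0, one_pow, one_mul]
        rwa [h6] at h5
      obtain ⟨j, hj⟩ := hj
      have hji : i ≠ j := by
        intro hij
        rw [← hij, hi'] at hj
        -- `e ^ 2 = q ^ 2` and `q` is not a unit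
        apply hqR'
        have h1 : q⁻¹ = e⁻¹ * e⁻¹ * q := by
          have : e * e = q * q := by rw [hj, sq]
          field_simp
          rw [sq, sq]
          exact this
        rw [h1]
        exact R.mul_mem _ _ (R.mul_mem _ _ heR' heR') hqR
      have hn2 : 2 ≤ n := by
        have := i.2; have := j.2
        by_contra h
        have h1 : (i : ℕ) = j := by omega
        exact hji (Fin.ext h1)
      have hν2 : 2 ≤ ν := by
        by_contra h
        have h2 : {i | a i = e}.ncard ≤ n - 1 := by
          have h3 : {i | a i = e} ⊆ {j}ᶜ := by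
            intro k hk hkj
            rw [Set.mem_singleton_iff] at hkj
            have hk' : a k = e := hk
            rw [hkj] at hk'
            -- `a j = e`, so `e ^ 2 = q ^ 2`
            apply hqR'
            have h1 : q⁻¹ = e⁻¹ * e⁻¹ * q := by
              have : e * e = q * q := by
                rw [hk'] at hj
                rw [hj, sq]
              field_simp
              rw [sq, sq]
              exact this
            rw [h1]
            exact R.mul_mem _ _ (R.mul_mem _ _ heR' heR') hqR
          have h4 := Set.ncard_le_ncard h3 (Set.toFinite _)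
          have h5 : ({j}ᶜ : Set (Fin n)).ncard = n - 1 := by
            rw [Set.ncard_compl, Nat.card_eq_fintype_card, Fintype.card_fin, Set.ncard_singleton]
          omega
        omega
      obtain ⟨n', rfl⟩ := Nat.exists_eq_add_of_le hn2
      obtain ⟨ν', rfl⟩ := Nat.exists_eq_add_of_le hν2
      obtain ⟨σ, hσ0, hσ1⟩ := exists_front i j hji
      refine hS.perm_iff σ z (hS.front _ ?_ ?_)
      · refine hT e (a j) _ _ (by rw [mul_comm]; exact hj) ?_ ?_
        · show z (σ (Fin.castAdd n' 0)) ∈ _
          rw [hσ0, ← hi']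
          exact hz i
        · show z (σ (Fin.castAdd n' 1)) ∈ _
          rw [hσ1]
          exact hz j
      · refine ih n' (by omega) ν' (by omega) (fun k => a (σ (Fin.natAdd 2 k))) _
          (fun k => hz _) (fun k => ha _) ?_
        have h1 : ∏ k, a k = a (σ (Fin.castAdd n' 0)) * a (σ (Fin.castAdd n' 1)) *
            ∏ k : Fin n', a (σ (Fin.natAdd 2 k)) := by
          rw [← Equiv.prod_comp σ a]
          exact prod_front fun k => a (σ k)
        have h2 : a (σ (Fin.castAdd n' 0)) * a (σ (Fin.castAdd n' 1)) = q ^ 2 := by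
          rw [hσ0, hσ1, hi', mul_comm]
          exact hj
        rw [h2] at h1
        rw [h1, pow_add, mul_div_mul_left _ _ (pow_ne_zero 2 hq0)] at hint
        exact hint

end Pool.Agent.Helper35.KN
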