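import Pool.Agent.Helper35.KN.Defs
import Pool.Agent.Helper35.KN.Ord

/-! Project K3 powers, higher coniveau. The main theorem. -/

set_option autoImplicit false

namespace Pool.Agent.Helper35.KN

open IntermediateField TensorProduct CategoryTheory Pool.Agent.Helper15.GD Polynomial
open CX.VC CX.Pool.Agent.Helper83.QF Pool.Agent.Helper35.KS

theorem voisin_two {Ω : Type} [Field Ω] [IsAlgClosed Ω] [CX.Good Ω] (Q : Qua Ω) (hN : Q.N = 2) :
    Voisin Q := by
  intro a ha
  obtain ⟨M, hM, h⟩ := CX.Pool.Agent.Helper83.QF.voisin hN le_rfl a ha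
  refine ⟨M, hM, ?_⟩
  convert h using 2
  rw [show (Finset.univ : Finset (Equiv.Perm (Fin 2))) = {1, Equiv.swap 0 1} by decide,
    Finset.sum_pair (by decide), Equiv.Perm.sign_one, Equiv.Perm.sign_swap (by decide)]
  have e1 : (fun i => a ((1 : Equiv.Perm (Fin 2)) i)) = ![a 0, a 1] := by
    funext i; fin_cases i <;> rfl
  have e2 : (fun i => a (Equiv.swap (0 : Fin 2) 1 i)) = ![a 1, a 0] := by
    funext i
    fin_cases i
    · show a (Equiv.swap (0 : Fin 2) 1 0) = a 1
      rw [Equiv.swap_apply_left]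
    · show a (Equiv.swap (0 : Fin 2) 1 1) = a 0
      rw [Equiv.swap_apply_right]
  rw [e1, e2]
  simp [sub_eq_add_neg]

section

variable {L V : Type*} [Field L] [AddCommGroup V] [Module L V] {n : ℕ}

theorem tprod_perm_mem (S : Submodule L (⨂[L] _ : Fin n, V))
    (hS : ∀ (z : Fin n → V) (i j : Fin n), i ≠ j →
      PiTensorProduct.tprod L z - PiTensorProduct.tprod L (z ∘ Equiv.swap i j) ∈ S)
    (σ : Equiv.Perm (Fin n)) : ∀ z : Fin n → V,
      PiTensorProduct.tprod L z - PiTensorProduct.tprod L (z ∘ σ) ∈ S := by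
  induction σ using Equiv.Perm.swap_induction_on with
  | one =>
    intro z
    have : z ∘ (1 : Equiv.Perm (Fin n)) = z := rfl
    rw [this, sub_self]
    exact S.zero_mem
  | swap_mul f x y hxy ih =>
    intro z
    have e : z ∘ (Equiv.swap x y * f : Equiv.Perm (Fin n)) = (z ∘ Equiv.swap x y) ∘ f := rfl
    have h1 := hS z x y hxy
    have h2 := ih (z ∘ Equiv.swap x y)
    rw [e, show PiTensorProduct.tprod L z - PiTensorProduct.tprod L ((z ∘ Equiv.swap x y) ∘ f) =
      (PiTensorProduct.tprod L z - PiTensorProduct.tprod L (z ∘ Equiv.swap x y)) +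
      (PiTensorProduct.tprod L (z ∘ Equiv.swap x y) -
        PiTensorProduct.tprod L ((z ∘ Equiv.swap x y) ∘ f)) by abel]
    exact S.add_mem h1 h2

/-- A stable subspace is the sum of its generalised eigenspaces. -/
theorem le_of_maxGen {W : Type*} [AddCommGroup W] [Module L W] [IsAlgClosed L]
    [FiniteDimensional L W] (G : Module.End L W) (S P : Submodule L W) (hP : ∀ t ∈ P, G t ∈ P)
    (h : ∀ c : L, (∃ t ∈ P, t ≠ 0 ∧ G t = c • t) → G.maxGenEigenspace c ≤ S) : P ≤ S := by
  let GP : Module.End L P := G.restrict hP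
  intro t ht
  have h1 : (⟨t, ht⟩ : P) ∈ ⨆ c : L, GP.maxGenEigenspace c := by
    rw [Module.End.iSup_maxGenEigenspace_eq_top]
    exact Submodule.mem_top
  have key : ∀ x ∈ ⨆ c : L, GP.maxGenEigenspace c, (x : W) ∈ S := by
    intro x hx
    induction hx using Submodule.iSup_induction' with
    | zero => exact S.zero_mem
    | add x y _ _ hx hy => exact S.add_mem hx hy
    | mem c x hx =>
      by_cases hx0 : x = 0
      · rw [hx0]
        exact S.zero_mem
      have h2 : GP.HasEigenvalue c := by
        rw [Module.End.hasEigenvalue_iff]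
        intro h0
        obtain ⟨k, hk⟩ := (Module.End.mem_maxGenEigenspace GP c x).1 hx
        have h2 : ∀ (m : ℕ) (u : P), ((GP - c • (1 : Module.End L P)) ^ m) u = 0 → u = 0 := by
          intro m
          induction m with
          | zero => intro u hu; simpa using hu
          | succ m ih =>
            intro u hu
            rw [pow_succ, Module.End.mul_apply] at hu
            have h3 := ih _ hu
            have h4 : u ∈ GP.eigenspace c := by
              rw [Module.End.mem_eigenspace_iff]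
              exact sub_eq_zero.1 h3
            rw [h0] at h4
            exact h4
        exact hx0 (h2 k x hk)
      obtain ⟨v, hv⟩ := h2.exists_hasEigenvector
      have h3 : G.maxGenEigenspace c ≤ S := by
        refine h c ⟨v, v.2, ?_, ?_⟩
        · intro h0
          exact hv.2 (Subtype.ext h0)
        · have := hv.apply_eq_smul
          exact congrArg Subtype.val this
      refine h3 ?_
      obtain ⟨k, hk⟩ := (Module.End.mem_maxGenEigenspace GP c x).1 hx
      rw [Module.End.mem_maxGenEigenspace]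
      refine ⟨k, ?_⟩
      have h4 : ∀ (m : ℕ) (u : P), (((GP - c • (1 : Module.End L P)) ^ m) u : W) =
          ((G - c • (1 : Module.End L W)) ^ m) (u : W) := by
        intro m
        induction m with
        | zero => intro u; rfl
        | succ m ih =>
          intro u
          rw [pow_succ, Module.End.mul_apply, ih, pow_succ, Module.End.mul_apply]
          rfl
      rw [← h4, hk]
      rfl
  exact key _ h1

/-- Alternation in two factors. -/
theorem Closed.swap_mem {S : ∀ n : ℕ, ℕ → Submodule L (⨂[L] _ : Fin n, V)} (hS : Closed S)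
    (h : ∀ x y : V, PiTensorProduct.tprod L ![x, y] - PiTensorProduct.tprod L ![y, x] ∈ S 2 1)
    {n : ℕ} (z : Fin n → V) (i j : Fin n) (hij : i ≠ j) :
    PiTensorProduct.tprod L z - PiTensorProduct.tprod L (z ∘ Equiv.swap i j) ∈ S n 1 := by
  have hn2 : 2 ≤ n := by
    have := i.2; have := j.2
    by_contra h
    have h1 : (i : ℕ) = j := by omega
    exact hij (Fin.ext h1)
  obtain ⟨m, rfl⟩ := Nat.exists_eq_add_of_le hn2
  obtain ⟨σ, h0, h1⟩ := exists_front i j hij
  let r : Fin m → V := fun k => z (σ (Fin.natAdd 2 k))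
  have h2 := hS.mul 2 m 1 0 _ _ (h (z i) (z j)) (hS.zero m (PiTensorProduct.tprod L r))
  have h3 : mulT (PiTensorProduct.tprod L ![z i, z j] - PiTensorProduct.tprod L ![z j, z i])
      (PiTensorProduct.tprod L r) = PiTensorProduct.tprod L (z ∘ σ) -
        PiTensorProduct.tprod L ((z ∘ Equiv.swap i j) ∘ σ) := by
    have e1 : Fin.append ![z i, z j] r = z ∘ σ := by
      conv_rhs => rw [← append_eq (z ∘ σ)]
      congr 1
      funext k
      fin_cases k
      · show z i = z (σ (Fin.castAdd m 0))
        rw [h0]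
      · show z j = z (σ (Fin.castAdd m 1))
        rw [h1]
    have e2 : Fin.append ![z j, z i] r = (z ∘ Equiv.swap i j) ∘ σ := by
      conv_rhs => rw [← append_eq ((z ∘ Equiv.swap i j) ∘ σ)]
      congr 1
      · funext k
        fin_cases k
        · show z j = z (Equiv.swap i j (σ (Fin.castAdd m 0)))
          rw [h0, Equiv.swap_apply_left]
        · show z i = z (Equiv.swap i j (σ (Fin.castAdd m 1)))
          rw [h1, Equiv.swap_apply_right]
      · funext k
        show z (σ (Fin.natAdd 2 k)) = z (Equiv.swap i j (σ (Fin.natAdd 2 k)))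
        have hk : ∀ l : Fin 2, (Fin.natAdd 2 k : Fin (2 + m)) ≠ Fin.castAdd m l := by
          intro l hl
          have := congrArg Fin.val hl
          simp only [Fin.val_natAdd, Fin.val_castAdd] at this
          omega
        rw [Equiv.swap_apply_of_ne_of_ne]
        · intro h4
          rw [← h0] at h4
          exact hk 0 (σ.injective h4)
        · intro h4
          rw [← h1] at h4
          exact hk 1 (σ.injective h4)
    unfold mulT
    rw [sub_tmul, map_sub]
    change mulT _ _ - mulT _ _ = _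
    rw [mulT_tprod, mulT_tprod, e1, e2]
  rw [h3] at h2
  have h4 := hS.perm (2 + m) 1 σ _ h2
  rw [map_sub, PiTensorProduct.reindex_tprod, PiTensorProduct.reindex_tprod] at h4
  have e3 : (fun k => (z ∘ σ) (σ.symm k)) = z := by
    funext k
    rw [Function.comp_apply, Equiv.apply_symm_apply]
  have e4 : (fun k => ((z ∘ Equiv.swap i j) ∘ σ) (σ.symm k)) = z ∘ Equiv.swap i j := by
    funext k
    rw [Function.comp_apply, Equiv.apply_symm_apply]
  rw [e3, e4] at h4
  exact h4

end

variable {Ω L : Type} [Field Ω] [IsAlgClosed Ω] [CX.Good Ω] [Field L]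

theorem tmap_tens {V V' : ModuleCat.{0} L} {n : ℕ} (ψ : Fin n → (V ⟶ V')) (z : Fin n → V) :
    (tmap ψ).hom (tens z) = tens fun i => (ψ i).hom (z i) :=
  PiTensorProduct.map_tprod _ _

theorem closed (T : PowCoh Ω L) (hT : T.IsTheory) (K : Ext Ω) :
    Closed (V := T.H K) (L := L) (fun n ν => T.sup K n ν) where
  zero n t := hT.products.zero K n t
  mul a b μ ν s t hs ht := hT.products.mul K a b μ ν s hs t ht
  perm n ν σ t ht := hT.products.perm K n ν σ t ht

theorem alt (T : PowCoh Ω L) (hT : T.IsTheory) (Q : Qua Ω) (hN : Q.N = 2) (K K0 : Ext Ω)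
    (hK : IsFieldOf Q K) (h : T.Linked K K0) (x y : T.H K0) :
    Cong (T.sup K0 2 1) ![x, y] ![y, x] := by
  have h0 : ∃ ψ ∈ T.corr K K0, Function.Surjective ψ.hom := by
    rcases h with ⟨g, hg⟩ | h
    · obtain ⟨ψ, hψ, h1⟩ := hT.trace K0 K g hg
      refine ⟨ψ, hψ, fun x => ⟨(T.map g).hom x, ?_⟩⟩
      have := congrArg (fun f => f.hom x) h1
      exact this
    · exact h
  obtain ⟨ψ, hψ, hs⟩ := h0
  obtain ⟨x', rfl⟩ := hs x
  obtain ⟨y', rfl⟩ := hs y
  have h2 : Cong (T.sup K 2 1) ![x', y'] ![y', x'] := by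
    refine hT.blochSrinivas Q K hK ?_ _ _
    intro Ω' _ _ _ _
    exact voisin_two (extend Q Ω') hN
  have h1 := hT.stable K K0 2 1 (fun _ => ψ) (fun _ => hψ) _ h2
  rw [map_sub, tmap_tens, tmap_tens] at h1
  have e : ∀ a b : T.H K, (fun i => ψ.hom (![a, b] i)) = ![ψ.hom a, ψ.hom b] := by
    intro a b
    funext i
    fin_cases i <;> rfl
  rw [e, e] at h1
  exact h1

theorem slot_mem (T : PowCoh Ω L) (hT : T.IsTheory) (K : Ext Ω) (φ : T.H K ⟶ T.H K)
    (hφ : φ ∈ T.corr K K) (n ν : ℕ) (i : Fin n) (t : tpow (T.H K) n) (ht : t ∈ T.sup K n ν) :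
    (slot i φ.hom) t ∈ T.sup K n ν := by
  have h1 := hT.stable K K n ν (Function.update (fun _ => CategoryStruct.id (T.H K)) i φ)
    (fun k => by
      by_cases hk : k = i
      · subst hk
        rw [Function.update_self]
        exact hφ
      · rw [Function.update_of_ne hk]
        exact hT.identity K) t ht
  have h2 : (fun k => (Function.update (fun _ => CategoryStruct.id (T.H K)) i φ k).hom) =
      Function.update (fun _ => LinearMap.id) i φ.hom := by
    funext k
    by_cases hk : k = i
    · subst hk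
      rw [Function.update_self, Function.update_self]
    · rw [Function.update_of_ne hk, Function.update_of_ne hk]
      rfl
  have h3 : slot i φ.hom = PiTensorProduct.map (R := L) (s := fun _ : Fin n => T.H K)
      (t := fun _ : Fin n => T.H K)
      (fun k => (Function.update (fun _ => CategoryStruct.id (T.H K)) i φ k).hom) := by
    rw [h2]
    rfl
  rw [h3]
  exact h1

theorem main [IsAlgClosed L] (T : PowCoh Ω L) (hT : T.IsTheory) (Q : Qua Ω) (hN : Q.N = 2)
    (K K0 : Ext Ω) (hK : IsFieldOf Q K) (hK0 : K0.FG) (h : T.Linked K K0) (n ν : ℕ) :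
    (∀ (z : Fin n → T.H K0) (σ : Equiv.Perm (Fin n)), Cong (T.sup K0 n 1) z (z ∘ σ)) ∧
    ∀ φ ∈ T.corr K0 K0, 2 * ν ≤ n → ∀ P : Submodule L (tpow (T.H K0) n),
      IsStable (tmap fun _ => φ) P →
      ((∀ (c : L) (a : Fin n → L), IsEigenvalue (tmap fun _ => φ) P c →
          (∀ i, IsEigenvalue φ ⊤ (a i)) → ∏ i, a i = c → ∀ b, {i | a i = b}.ncard + ν ≤ n) →
            P ≤ T.sup K0 n ν) ∧
        ∀ q : L, Ordinary φ q → T.IsTate φ q →
          (∀ c : L, IsEigenvalue (tmap fun _ => φ) P c → IsIntegral ℤ (c / q ^ ν)) →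
            P ≤ T.sup K0 n ν := by
  have hfin := hT.finite K0 hK0
  have hS := closed T hT K0
  have halt := alt T hT Q hN K K0 hK h
  have hsw : ∀ {n : ℕ} (z : Fin n → T.H K0) (i j : Fin n), i ≠ j →
      PiTensorProduct.tprod L z - PiTensorProduct.tprod L (z ∘ Equiv.swap i j) ∈ T.sup K0 n 1 :=
    fun z i j hij => hS.swap_mem halt z i j hij
  refine ⟨fun z σ => tprod_perm_mem _ hsw σ z, fun φ hφ hν P hP => ?_⟩
  have hev : ∀ a : L, Module.End.HasEigenvalue φ.hom a → IsEigenvalue φ ⊤ a := by
    intro a ha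
    obtain ⟨x, hx⟩ := ha.exists_hasEigenvector
    exact ⟨x, Submodule.mem_top, hx.2, hx.apply_eq_smul⟩
  have hev' : ∀ a : L, IsEigenvalue φ ⊤ a → Module.End.HasEigenvalue φ.hom a := by
    rintro a ⟨x, -, hx0, hx⟩
    exact Module.End.hasEigenvalue_of_hasEigenvector
      ⟨Module.End.mem_eigenspace_iff.2 hx, hx0⟩
  have hpair : ∀ (a b : L) (x y : T.H K0), a ≠ b → x ∈ Module.End.maxGenEigenspace φ.hom a →
      y ∈ Module.End.maxGenEigenspace φ.hom b →
        PiTensorProduct.tprod L ![x, y] ∈ T.sup K0 2 1 := by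
    intro a b x y hab hx hy
    refine tprod_mem φ.hom (T.sup K0 2 1) hsw (fun i t ht => slot_mem T hT K0 φ hφ 2 1 i t ht)
      (a := ![a, b]) (i := 0) (j := 1) hab fun k => ?_
    fin_cases k
    · exact hx
    · exact hy
  have hfd : FiniteDimensional L (⨂[L] _ : Fin n, T.H K0) := inferInstance
  constructor
  · intro hc
    refine le_of_maxGen (W := ⨂[L] _ : Fin n, T.H K0) (PiTensorProduct.map fun _ => φ.hom) _ P
      hP fun c hc' => ?_
    refine maxGen_le_of φ.hom (T.sup K0 n ν) c fun a z hz ha hac => ?_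
    exact hS.tprod_mem φ.hom hpair hν a z hz (hc c a hc' (fun i => hev _ (ha i)) hac)
  · intro q hq hT' hint
    refine le_of_maxGen (W := ⨂[L] _ : Fin n, T.H K0) (PiTensorProduct.map fun _ => φ.hom) _ P
      hP fun c hc' => ?_
    refine maxGen_le_of φ.hom (T.sup K0 n ν) c fun a z hz ha hac => ?_
    refine hS.tprod_mem_ord φ.hom q (fun a ha => ?_) hpair
      (fun a b x y hab hx hy => hT' a b x y hab hx hy) n ν hν a z hz ha (hac ▸ hint c hc')
    obtain ⟨R, h1, h2, h3, h4, h5, h6, h7⟩ := hq a (hev a ha)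
    exact ⟨R, h1, h2, h3, h4, h5, h6, fun b hb => h7 b (hev b hb)⟩

end Pool.Agent.Helper35.KN
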