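import Pool.Agent.Helper35.KN.Union
import Pool.Agent.Helper33.KN.Defs

/-!
KN, project K'': the numbers `(m, 0)` at `k` labels at the same time.
-/

set_option autoImplicit false

namespace Pool.Agent.Helper35.KN

open Finset Pool.Agent.Helper79.KN Pool.Agent.Helper33.KN

variable {m : ℕ} (a : Fin m → ℕ)

/-- the points near the origin -/
def pt (j0 : Fin m) (c : ℕ) : Fin m → ℕ := Function.update (fun _ => 1) j0 (1 + c)

theorem pt_inj (j0 : Fin m) : Function.Injective (pt j0) := by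
  intro c d h
  have := congrFun h j0
  simp only [pt, Function.update_self] at this
  omega

variable {a}

theorem pt_sum {k : ℕ} (hk : 0 < k) (ha : ∀ j, 2 * m * k ^ 2 < a j) (j0 : Fin m) {c : ℕ} (hc : c < k) :
    ∑ j, (pt j0 c j : ℚ) / a j < 1 / (2 * k) := by
  have hm : 0 < m := j0.pos
  have hmq : (0 : ℚ) < m := by exact_mod_cast hm
  have hkq : (0 : ℚ) < k := by exact_mod_cast hk
  have haq : ∀ j, (2 * m * k ^ 2 : ℚ) < a j := fun j => by exact_mod_cast ha j
  have hpos : (0 : ℚ) < 2 * m * k ^ 2 := by positivity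
  have h1 : ∀ j, (pt j0 c j : ℚ) / a j = 1 / a j + if j = j0 then (c : ℚ) / a j else 0 := by
    intro j
    by_cases h : j = j0
    · subst h
      rw [if_pos rfl, pt, Function.update_self]
      push_cast
      rw [add_div]
    · rw [if_neg h, pt, Function.update_of_ne h, Nat.cast_one, add_zero]
  rw [Finset.sum_congr rfl fun j _ => h1 j, Finset.sum_add_distrib, Finset.sum_ite_eq' Finset.univ j0, if_pos (Finset.mem_univ _)]
  have h2 : ∑ j, 1 / (a j : ℚ) < ∑ _j : Fin m, 1 / (2 * m * k ^ 2 : ℚ) := by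
    haveI : Nonempty (Fin m) := ⟨j0⟩
    refine Finset.sum_lt_sum_of_nonempty Finset.univ_nonempty fun j _ => ?_
    exact one_div_lt_one_div_of_lt hpos (haq j)
  have h3 : ∑ _j : Fin m, 1 / (2 * m * k ^ 2 : ℚ) = 1 / (2 * k ^ 2) := by
    rw [Finset.sum_const, Finset.card_univ, Fintype.card_fin, nsmul_eq_mul]
    field_simp
  have h4 : (c : ℚ) / a j0 ≤ (k - 1) / (2 * k ^ 2) := by
    have h5 : (c : ℚ) ≤ k - 1 := by
      have : (c : ℚ) + 1 ≤ k := by exact_mod_cast hc
      linarith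
    have h6 : (2 * k ^ 2 : ℚ) ≤ a j0 := by
      refine le_trans ?_ (haq j0).le
      have : (1 : ℚ) ≤ m := by exact_mod_cast hm
      nlinarith [sq_nonneg (k : ℚ)]
    have h7 : (0 : ℚ) ≤ c := Nat.cast_nonneg c
    calc (c : ℚ) / a j0 ≤ c / (2 * k ^ 2) := by
          exact div_le_div_of_nonneg_left h7 (by positivity) h6
      _ ≤ (k - 1) / (2 * k ^ 2) := by
          exact div_le_div_of_nonneg_right h5 (by positivity)
  have h8 : (1 : ℚ) / (2 * k ^ 2) + (k - 1) / (2 * k ^ 2) = 1 / (2 * k) := by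
    field_simp
    ring
  linarith

theorem pt_mem {k : ℕ} (hk : 0 < k) (ha : ∀ j, 2 * m * k ^ 2 < a j) (j0 : Fin m) {c : ℕ} (hc : c < k) (j : Fin m) :
    0 < pt j0 c j ∧ pt j0 c j < a j := by
  have h1 : k < a j := by
    have h2 := ha j
    have h3 : k ≤ k ^ 2 := Nat.le_self_pow (by norm_num) k
    have h4 : 1 * k ^ 2 ≤ 2 * m * k ^ 2 := Nat.mul_le_mul_right _ (by have := j0.pos; omega)
    omega
  by_cases h : j = j0
  · subst h
    rw [pt, Function.update_self]
    omega
  · rw [pt, Function.update_of_ne h]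
    omega

theorem spec_zero_ge {k : ℕ} (hk : 0 < k) (hm : 0 < m) (ha : ∀ j, 2 * m * k ^ 2 < a j) {n s : ℕ} (hs : s < n)
    (h : n ≤ 2 * k * (n - s)) : k ≤ spec a n s 0 := by
  let j0 : Fin m := ⟨0, hm⟩
  have hn : (0 : ℚ) < n := by exact_mod_cast (by omega : 0 < n)
  have hkq : (0 : ℚ) < k := by exact_mod_cast hk
  have h1 : (1 : ℚ) / (2 * k) ≤ 1 - s / n := by
    have h2 : (n : ℚ) ≤ 2 * k * (n - s) := by
      have : (n : ℚ) ≤ ((2 * k * (n - s) : ℕ) : ℚ) := by exact_mod_cast h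
      rw [Nat.cast_mul, Nat.cast_sub hs.le] at this
      push_cast at this
      exact this
    rw [div_le_iff₀ (by positivity), sub_mul, one_mul, div_mul_eq_mul_div, le_sub_iff_add_le, ← le_sub_iff_add_le',
      div_le_iff₀ hn]
    nlinarith
  have h2 : ((Finset.range k).image (pt j0)) ⊆ (Fintype.piFinset fun k => Finset.Ioo 0 (a k)).filter fun i =>
      ⌊∑ k, (i k : ℚ) / a k + (s : ℚ) / n⌋ = 0 := by
    intro i hi
    rw [Finset.mem_image] at hi
    obtain ⟨c, hc, rfl⟩ := hi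
    rw [Finset.mem_range] at hc
    rw [Finset.mem_filter, Fintype.mem_piFinset]
    refine ⟨fun j => Finset.mem_Ioo.2 (pt_mem hk ha j0 hc j), ?_⟩
    have h3 := pt_sum hk ha j0 hc
    have h4 : (0 : ℚ) ≤ ∑ j, (pt j0 c j : ℚ) / a j := Finset.sum_nonneg fun j _ => by positivity
    have h5 : (0 : ℚ) ≤ s / n := by positivity
    rw [Int.floor_eq_zero_iff]
    exact ⟨by linarith, by linarith⟩
  calc k = ((Finset.range k).image (pt j0)).card := by
        rw [Finset.card_image_of_injective _ (pt_inj j0), Finset.card_range]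
    _ ≤ _ := Finset.card_le_card h2

theorem spec_top_ge {k : ℕ} (hk : 0 < k) (hm : 0 < m) (ha : ∀ j, 2 * m * k ^ 2 < a j) {n s : ℕ} (hs : s < n)
    (h : n ≤ 2 * k * s) : k ≤ spec a n s m := by
  let j0 : Fin m := ⟨0, hm⟩
  have hn : (0 : ℚ) < n := by exact_mod_cast (by omega : 0 < n)
  have hkq : (0 : ℚ) < k := by exact_mod_cast hk
  have h1 : (1 : ℚ) / (2 * k) ≤ s / n := by
    have h2 : (n : ℚ) ≤ 2 * k * s := by exact_mod_cast h
    rw [div_le_div_iff₀ (by positivity) hn]
    linarith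
  have hmem : ∀ c < k, ∀ j, 0 < pt j0 c j ∧ pt j0 c j < a j := fun c hc j => pt_mem hk ha j0 hc j
  have hinj : Set.InjOn (fun c j => a j - pt j0 c j) (Finset.range k : Set ℕ) := by
    intro c hc d hd hcd
    rw [Finset.mem_coe, Finset.mem_range] at hc hd
    refine pt_inj j0 (funext fun j => ?_)
    have h3 := congrFun hcd j
    have h4 := hmem c hc j
    have h5 := hmem d hd j
    simp only at h3
    omega
  have h2 : ((Finset.range k).image fun c j => a j - pt j0 c j) ⊆
      (Fintype.piFinset fun k => Finset.Ioo 0 (a k)).filter fun i =>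
      ⌊∑ k, (i k : ℚ) / a k + (s : ℚ) / n⌋ = m := by
    intro i hi
    rw [Finset.mem_image] at hi
    obtain ⟨c, hc, rfl⟩ := hi
    rw [Finset.mem_range] at hc
    rw [Finset.mem_filter, Fintype.mem_piFinset]
    refine ⟨fun j => Finset.mem_Ioo.2 (by have := hmem c hc j; omega), ?_⟩
    have h3 := pt_sum hk ha j0 hc
    have h4 : (0 : ℚ) ≤ ∑ j, (pt j0 c j : ℚ) / a j := Finset.sum_nonneg fun j _ => by positivity
    have h5 : (s : ℚ) / n < 1 := (div_lt_one hn).2 (by exact_mod_cast hs)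
    have h6 : ∑ j, ((a j - pt j0 c j : ℕ) : ℚ) / a j = m - ∑ j, (pt j0 c j : ℚ) / a j := by
      rw [eq_sub_iff_add_eq, ← Finset.sum_add_distrib]
      have h7 : ∀ j, ((a j - pt j0 c j : ℕ) : ℚ) / a j + (pt j0 c j : ℚ) / a j = 1 := by
        intro j
        have h8 := hmem c hc j
        have h9 : (a j : ℚ) ≠ 0 := by
          have : 0 < a j := by omega
          positivity
        rw [Nat.cast_sub h8.2.le, ← add_div, sub_add_cancel, div_self h9]
      rw [Finset.sum_congr rfl fun j _ => h7 j, Finset.sum_const, Finset.card_univ, Fintype.card_fin, nsmul_eq_mul,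
        mul_one]
    rw [h6, Int.floor_eq_iff]
    push_cast
    exact ⟨by linarith, by linarith⟩
  calc k = ((Finset.range k).image fun c j => a j - pt j0 c j).card := by
        rw [Finset.card_image_of_injOn hinj, Finset.card_range]
    _ ≤ _ := Finset.card_le_card h2

/-- **the numbers at `k` labels** -/
theorem hzero_ge {k : ℕ} (hk : 0 < k) (hm : 0 < m) (ha : ∀ j, 2 * m * k ^ 2 < a j) {r e : ℕ} (hr : r.Prime) (h2 : 2 < r)
    (he : 0 < e) (l : Fin k → {u : ℕ // 0 < u ∧ 2 * u < r ^ e} × Bool) :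
    ∃ t : {t : ℕ // Nat.Coprime t r}, ∀ j, k ≤ hzero (fun (t : {t : ℕ // Nat.Coprime t r})
      (u : {u : ℕ // 0 < u ∧ 2 * u < r ^ e}) q => spec a (r ^ e) (t.1 * u.1 % r ^ e) q) m t (l j) := by
  obtain ⟨t, ht, h⟩ := exists_unit hr h2 he (fun j => (l j).1.1) (fun j => (l j).2) (fun j => (l j).1.2.1)
    (fun j => by have := (l j).1.2.2; omega)
  refine ⟨⟨t, ht⟩, fun j => ?_⟩
  have h1 := h j
  have hlt := Nat.mod_lt (t * (l j).1.1) (Nat.pow_pos hr.pos : 0 < r ^ e)
  unfold hzero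
  by_cases hb : (l j).2
  · rw [if_pos hb]
    rw [if_pos hb] at h1
    exact spec_zero_ge hk hm ha hlt h1
  · rw [if_neg hb]
    rw [if_neg hb] at h1
    exact spec_top_ge hk hm ha hlt h1

end Pool.Agent.Helper35.KN
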