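import Pool.Agent.Helper35.KS.Pow

/-! Project K3 powers, higher coniveau. Pairs of factors with different eigenvalues. -/

set_option autoImplicit false

namespace Pool.Agent.Helper35.KN

open TensorProduct Pool.Agent.Helper35.KS

/-- the position of the pair -/
private def pos (ν m : ℕ) (i : ℕ) : ℕ :=
  if i < 2 * ν then (if i % 2 = 0 then i / 2 else i / 2 + (ν + m)) else i - ν

theorem exists_pairing {α : Type*} (ν m : ℕ) (a : Fin (2 * ν + m) → α)
    (h : ∀ b : α, {i | a i = b}.ncard + ν ≤ 2 * ν + m) :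
    ∃ σ : Equiv.Perm (Fin (2 * ν + m)), ∀ (k : ℕ) (hk : k < ν),
      a (σ ⟨2 * k, by omega⟩) ≠ a (σ ⟨2 * k + 1, by omega⟩) := by
  classical
  -- numbers for the values
  let s : Finset α := Finset.univ.image a
  let e := s.equivFin
  let b : Fin (2 * ν + m) → Fin s.card :=
    fun i => e ⟨a i, Finset.mem_image_of_mem a (Finset.mem_univ i)⟩
  have hb : ∀ i j, b i = b j ↔ a i = a j := by
    intro i j
    rw [e.injective.eq_iff, Subtype.mk.injEq]
  let τ := Tuple.sort b
  have hmono : Monotone (b ∘ τ) := Tuple.monotone_sort b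
  have key : ∀ (k : ℕ) (hk : k < ν),
      a (τ ⟨k, by omega⟩) ≠ a (τ ⟨k + (ν + m), by omega⟩) := by
    intro k hk h0
    have h1 : b (τ ⟨k, by omega⟩) = b (τ ⟨k + (ν + m), by omega⟩) := (hb _ _).2 h0
    have h2 : ∀ j : Fin (ν + m + 1), a (τ ⟨k + j, by omega⟩) = a (τ ⟨k, by omega⟩) := by
      intro j
      have h3 : b (τ ⟨k, by omega⟩) ≤ b (τ ⟨k + j, by omega⟩) :=
        hmono (Fin.mk_le_mk.2 (by omega))
      have h4 : b (τ ⟨k + j, by omega⟩) ≤ b (τ ⟨k + (ν + m), by omega⟩) :=
        hmono (Fin.mk_le_mk.2 (by omega))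
      exact (hb _ _).1 (le_antisymm (h4.trans h1.symm.le) h3)
    have h5 : (Set.range fun j : Fin (ν + m + 1) =>
        τ (⟨k + j, by omega⟩ : Fin (2 * ν + m))).ncard = ν + m + 1 := by
      rw [← Set.image_univ, Set.ncard_image_of_injective, Set.ncard_univ, Nat.card_eq_fintype_card,
        Fintype.card_fin]
      intro j j' hjj
      have h6 := τ.injective hjj
      rw [Fin.mk.injEq] at h6
      exact Fin.ext (by omega)
    have h6 : (Set.range fun j : Fin (ν + m + 1) =>
        τ (⟨k + j, by omega⟩ : Fin (2 * ν + m))).ncard ≤ {i | a i = a (τ ⟨k, by omega⟩)}.ncard := by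
      refine Set.ncard_le_ncard ?_ (Set.toFinite _)
      rintro _ ⟨j, rfl⟩
      exact h2 j
    have h7 := h (a (τ ⟨k, by omega⟩))
    omega
  have hlt : ∀ i : Fin (2 * ν + m), pos ν m i < 2 * ν + m := by
    intro i
    unfold pos
    split_ifs <;> omega
  have hinj : Function.Injective fun i : Fin (2 * ν + m) =>
      (⟨pos ν m i, hlt i⟩ : Fin (2 * ν + m)) := by
    intro i j hij
    rw [Fin.mk.injEq] at hij
    unfold pos at hij
    refine Fin.ext ?_
    split_ifs at hij <;> omega
  let ρ : Equiv.Perm (Fin (2 * ν + m)) := Equiv.ofBijective _ (Finite.injective_iff_bijective.1 hinj)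
  refine ⟨ρ.trans τ, fun k hk => ?_⟩
  have e1 : ρ ⟨2 * k, by omega⟩ = ⟨k, by omega⟩ := by
    refine Fin.ext ?_
    show pos ν m (2 * k) = k
    unfold pos
    split_ifs <;> omega
  have e2 : ρ ⟨2 * k + 1, by omega⟩ = ⟨k + (ν + m), by omega⟩ := by
    refine Fin.ext ?_
    show pos ν m (2 * k + 1) = k + (ν + m)
    unfold pos
    split_ifs <;> omega
  rw [Equiv.trans_apply, Equiv.trans_apply, e1, e2]
  exact key k hk

variable {L V : Type*} [Field L] [AddCommGroup V] [Module L V]

/-- the product of tensors -/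
noncomputable def mulT {a b : ℕ} (s : ⨂[L] _ : Fin a, V) (t : ⨂[L] _ : Fin b, V) :
    ⨂[L] _ : Fin (a + b), V :=
  TensorPower.mulEquiv (s ⊗ₜ[L] t)

theorem mulT_tprod {a b : ℕ} (x : Fin a → V) (y : Fin b → V) :
    mulT (PiTensorProduct.tprod L x) (PiTensorProduct.tprod L y) =
      PiTensorProduct.tprod L (Fin.append x y) :=
  TensorPower.tprod_mul_tprod L x y

/-- A family of subspaces of the tensor powers, closed under products and permutations. -/
structure Closed (S : ∀ n : ℕ, ℕ → Submodule L (⨂[L] _ : Fin n, V)) : Prop where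
  zero : ∀ n (t : ⨂[L] _ : Fin n, V), t ∈ S n 0
  mul : ∀ a b μ ν (s : ⨂[L] _ : Fin a, V) (t : ⨂[L] _ : Fin b, V), s ∈ S a μ → t ∈ S b ν →
    mulT s t ∈ S (a + b) (μ + ν)
  perm : ∀ n ν (σ : Equiv.Perm (Fin n)) (t : ⨂[L] _ : Fin n, V), t ∈ S n ν →
    PiTensorProduct.reindex L (fun _ => V) σ t ∈ S n ν

theorem Closed.perm_iff {S : ∀ n : ℕ, ℕ → Submodule L (⨂[L] _ : Fin n, V)} (hS : Closed S)
    {n ν : ℕ} (σ : Equiv.Perm (Fin n)) (z : Fin n → V)
    (h : PiTensorProduct.tprod L (z ∘ σ) ∈ S n ν) : PiTensorProduct.tprod L z ∈ S n ν := by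
  have h1 := hS.perm n ν σ _ h
  rw [PiTensorProduct.reindex_tprod] at h1
  convert h1 using 2
  funext i
  simp

theorem append_eq {a b : ℕ} {α : Type*} (w : Fin (a + b) → α) :
    Fin.append (fun i => w (Fin.castAdd b i)) (fun i => w (Fin.natAdd a i)) = w := by
  funext i
  refine Fin.addCases (fun i => ?_) (fun i => ?_) i
  · rw [Fin.append_left]
  · rw [Fin.append_right]

theorem Closed.pairs {S : ∀ n : ℕ, ℕ → Submodule L (⨂[L] _ : Fin n, V)} (hS : Closed S) (ν : ℕ) :
    ∀ w : Fin (2 * ν) → V, (∀ (k : ℕ) (hk : k < ν),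
      PiTensorProduct.tprod L ![w ⟨2 * k, by omega⟩, w ⟨2 * k + 1, by omega⟩] ∈ S 2 1) →
        PiTensorProduct.tprod L w ∈ S (2 * ν) ν := by
  induction ν with
  | zero => intro w _; exact hS.zero _ _
  | succ ν ih =>
    intro w hw
    have h1 := ih (fun i => w (Fin.castAdd 2 i)) fun k hk => hw k (by omega)
    have h2 : PiTensorProduct.tprod L (fun i => w (Fin.natAdd (2 * ν) i) : Fin 2 → V) ∈ S 2 1 := by
      have h3 := hw ν (by omega)
      convert h3 using 2
      funext i
      fin_cases i <;> rfl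
    have h3 := hS.mul (2 * ν) 2 ν 1 _ _ h1 h2
    rw [mulT_tprod, append_eq] at h3
    exact h3

theorem Closed.pairs_rest {S : ∀ n : ℕ, ℕ → Submodule L (⨂[L] _ : Fin n, V)} (hS : Closed S)
    (ν m : ℕ) (w : Fin (2 * ν + m) → V) (hw : ∀ (k : ℕ) (hk : k < ν),
      PiTensorProduct.tprod L ![w ⟨2 * k, by omega⟩, w ⟨2 * k + 1, by omega⟩] ∈ S 2 1) :
    PiTensorProduct.tprod L w ∈ S (2 * ν + m) ν := by
  have h1 := hS.pairs ν (fun i => w (Fin.castAdd m i)) hw
  have h2 := hS.mul (2 * ν) m ν 0 _ _ h1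
    (hS.zero m (PiTensorProduct.tprod L fun i => w (Fin.natAdd (2 * ν) i)))
  rw [mulT_tprod, append_eq] at h2
  exact h2

/-- **Products of generalised eigenvectors.** -/
theorem Closed.tprod_mem {S : ∀ n : ℕ, ℕ → Submodule L (⨂[L] _ : Fin n, V)} (hS : Closed S)
    (F : Module.End L V)
    (hpair : ∀ (a b : L) (x y : V), a ≠ b → x ∈ F.maxGenEigenspace a →
      y ∈ F.maxGenEigenspace b → PiTensorProduct.tprod L ![x, y] ∈ S 2 1)
    {n ν : ℕ} (hν : 2 * ν ≤ n) (a : Fin n → L) (z : Fin n → V)
    (hz : ∀ i, z i ∈ F.maxGenEigenspace (a i)) (ha : ∀ b : L, {i | a i = b}.ncard + ν ≤ n) :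
    PiTensorProduct.tprod L z ∈ S n ν := by
  obtain ⟨m, rfl⟩ := Nat.exists_eq_add_of_le hν
  obtain ⟨σ, hσ⟩ := exists_pairing ν m a ha
  refine hS.perm_iff σ z (hS.pairs_rest ν m _ fun k hk => ?_)
  exact hpair _ _ _ _ (hσ k hk) (hz _) (hz _)

/-- The generalised eigenspaces of the tensor power are spanned by products. -/
theorem maxGen_le_of [IsAlgClosed L] [FiniteDimensional L V] {n : ℕ} (F : Module.End L V)
    (S : Submodule L (⨂[L] _ : Fin n, V)) (c : L)
    (hS : ∀ (a : Fin n → L) (z : Fin n → V), (∀ i, z i ∈ F.maxGenEigenspace (a i)) →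
      (∀ i, F.HasEigenvalue (a i)) → ∏ i, a i = c → PiTensorProduct.tprod L z ∈ S) :
    Module.End.maxGenEigenspace (PiTensorProduct.map fun _ : Fin n => F) c ≤ S := by
  classical
  set G : Module.End L (⨂[L] _ : Fin n, V) := PiTensorProduct.map fun _ : Fin n => F with hG
  let U : Submodule L (⨂[L] _ : Fin n, V) := ⨆ (d : L) (_ : d ≠ c), G.maxGenEigenspace d
  have hzero : ∀ (a : L) (x : V), x ∈ F.maxGenEigenspace a → x ≠ 0 → F.HasEigenvalue a := by
    intro a x hx hx0
    rw [Module.End.hasEigenvalue_iff]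
    intro h0
    obtain ⟨k, hk⟩ := (Module.End.mem_maxGenEigenspace F a x).1 hx
    have h2 : ∀ (m : ℕ) (u : V), ((F - a • (1 : Module.End L V)) ^ m) u = 0 → u = 0 := by
      intro m
      induction m with
      | zero => intro u hu; simpa using hu
      | succ m ih =>
        intro u hu
        rw [pow_succ, Module.End.mul_apply] at hu
        have h3 := ih _ hu
        have h4 : u ∈ F.eigenspace a := by
          rw [Module.End.mem_eigenspace_iff]
          exact sub_eq_zero.1 h3
        rw [h0] at h4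
        exact h4
    exact hx0 (h2 k x hk)
  have hpure : ∀ (s : Finset (Fin n)) (z : Fin n → V),
      (∀ k, k ∉ s → ∃ a, z k ∈ F.maxGenEigenspace a) →
      PiTensorProduct.tprod L z ∈ (S ⊓ G.maxGenEigenspace c) ⊔ U := by
    intro s
    induction s using Finset.induction_on with
    | empty =>
      intro z hz
      choose a ha using fun k => hz k (Finset.notMem_empty k)
      have h1 := tprod_mem_maxGen F ha
      by_cases hd : ∏ k, a k = c
      · refine Submodule.mem_sup_left ⟨?_, hd ▸ h1⟩
        by_cases hz0 : ∃ i, z i = 0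
        · obtain ⟨i, hi⟩ := hz0
          rw [show PiTensorProduct.tprod L z = 0 from MultilinearMap.map_coord_zero _ i hi]
          exact Submodule.zero_mem _
        · simp only [not_exists] at hz0
          exact hS a z ha (fun i => hzero _ _ (ha i) (hz0 i)) hd
      · exact Submodule.mem_sup_right (Submodule.mem_iSup_of_mem (∏ k, a k)
          (Submodule.mem_iSup_of_mem hd h1))
    | insert i s hi ih =>
      intro z hz
      have hzi : z i ∈ ⨆ a : L, F.maxGenEigenspace a := by
        rw [Module.End.iSup_maxGenEigenspace_eq_top]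
        exact Submodule.mem_top
      have key : ∀ x ∈ ⨆ a : L, F.maxGenEigenspace a,
          PiTensorProduct.tprod L (Function.update z i x) ∈
            (S ⊓ G.maxGenEigenspace c) ⊔ U := by
        intro x hx
        induction hx using Submodule.iSup_induction' with
        | zero =>
          rw [MultilinearMap.map_update_zero]
          exact Submodule.zero_mem _
        | add x x' _ _ hx hx' =>
          rw [MultilinearMap.map_update_add]
          exact Submodule.add_mem _ hx hx'
        | mem a x hx =>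
          refine ih _ fun k hk => ?_
          by_cases hki : k = i
          · rw [hki, Function.update_self]
            exact ⟨a, hx⟩
          · rw [Function.update_of_ne hki]
            exact hz k fun h => (Finset.mem_insert.1 h).elim hki hk
      have h2 := key _ hzi
      rwa [Function.update_eq_self] at h2
  have htop : ∀ t : ⨂[L] _ : Fin n, V, t ∈ (S ⊓ G.maxGenEigenspace c) ⊔ U := by
    intro t
    have h1 : t ∈ Submodule.span L (Set.range (PiTensorProduct.tprod L (s := fun _ : Fin n => V))) := by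
      rw [PiTensorProduct.span_tprod_eq_top]
      exact Submodule.mem_top
    refine Submodule.span_le.2 ?_ h1
    rintro _ ⟨z, rfl⟩
    exact hpure Finset.univ z fun k hk => absurd (Finset.mem_univ k) hk
  intro t ht
  obtain ⟨s, hs, u, hu, hsu⟩ := Submodule.mem_sup.1 (htop t)
  have h1 : u ∈ G.maxGenEigenspace c := by
    have h2 : u = t - s := by rw [← hsu]; abel
    rw [h2]
    exact Submodule.sub_mem _ ht hs.2
  have h2 := Module.End.independent_maxGenEigenspace G c
  have h3 : u = 0 := Submodule.disjoint_def.1 h2 u h1 hu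
  rw [← hsu, h3, add_zero]
  exact hs.1

end Pool.Agent.Helper35.KN
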