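import Pool.Agent.Helper79.KN.Spectrum
import Pool.Agent.Helper35.KN.Sep

/-!
KN, block E'': the numbers given by a spectrum separate the characters of order dividing `r ^ e`, up to inversion.
-/

set_option autoImplicit false

namespace Pool.Agent.Helper35.KN

open Pool.Agent.Helper79.KN

section window

/-- a number in the window -/
theorem choose1' {A D Q r : ℕ} (hr : 1 < r) (hA : 0 < A) (hDA : D + 1 ≤ A) (hQ : 2 * A < Q) :
    ∃ v, ¬ r ∣ v ∧ D * Q ≤ A * v ∧ A * v < (D + 1) * Q ∧ v < Q := by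
  have h1 := Nat.div_add_mod (D * Q) A
  have h2 := Nat.mod_lt (D * Q) hA
  have h3 : ∃ v, ¬ r ∣ v ∧ (v = D * Q / A + 1 ∨ v = D * Q / A + 1 + 1) := by
    by_cases h : r ∣ D * Q / A + 1
    · refine ⟨D * Q / A + 1 + 1, fun h' => ?_, Or.inr rfl⟩
      have := Nat.le_of_dvd one_pos ((Nat.dvd_add_right h).1 h')
      omega
    · exact ⟨_, h, Or.inl rfl⟩
  obtain ⟨v, hv, h4⟩ := h3
  have hDQ : (D + 1) * Q = D * Q + Q := by ring
  have h5 : D * Q ≤ A * v ∧ A * v < (D + 1) * Q := by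
    rw [hDQ]
    rcases h4 with rfl | rfl
    · rw [mul_add, mul_one]
      constructor <;> omega
    · rw [mul_add, mul_add, mul_one]
      constructor <;> omega
  refine ⟨v, hv, h5.1, h5.2, ?_⟩
  by_contra h6
  have h7 := Nat.mul_le_mul_left A (not_lt.1 h6)
  have h8 := Nat.mul_le_mul_right Q hDA
  omega

/-- a number in the window, for the separation -/
theorem choose2' {A D Q r v : ℕ} (hD : 0 < D) (hA : 4 * D ≤ A) (hr : 2 * A < r) (hQ : 2 * A < Q) (hv : 2 ≤ v)
    (hvQ : 2 * v < Q) :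
    ∃ t, ¬ r ∣ t ∧ A * t < D * Q ∧ D * Q ≤ A * (t * v) ∧ A * (t * v) + D * Q ≤ A * Q := by
  have hP0 := Nat.mul_pos (by omega : 0 < A) (by omega : 0 < v)
  have h1 := Nat.div_add_mod (D * Q) (A * v)
  have h2 := Nat.mod_lt (D * Q) hP0
  generalize D * Q / (A * v) = k at h1
  generalize D * Q % (A * v) = ρ at h1 h2
  obtain ⟨w, rfl⟩ : ∃ w, v = w + 2 := ⟨v - 2, by omega⟩
  have hDQ : Q ≤ D * Q := Nat.le_mul_of_pos_left _ hD
  have h4Q : 4 * (D * Q) ≤ A * Q := by
    have := Nat.mul_le_mul_right Q hA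
    rwa [mul_assoc] at this
  have hAQ2 : A * (2 * (w + 2)) ≤ A * Q := Nat.mul_le_mul_left _ hvQ.le
  have hAQ3 : A * (2 * (w + 2)) = 2 * (A * (w + 2)) := by ring
  generalize hE : D * Q = E at *
  have hQw : E * (w + 2) = E * (w + 1) + E := by ring
  have hPA : A * (w + 2) = A * (w + 1) + A := by ring
  have e1 : A * (k + 1 + 1) * (w + 2) = A * (w + 2) * k + 2 * (A * (w + 2)) := by ring
  have e1' : A * ((k + 1 + 1) * (w + 2)) = A * (w + 2) * k + 2 * (A * (w + 2)) := by ring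
  have e2 : A * (k + 1) * (w + 2) = A * (w + 2) * k + A * (w + 2) := by ring
  have e2' : A * ((k + 1) * (w + 2)) = A * (w + 2) * k + A * (w + 2) := by ring
  have hQ1 : E ≤ E * (w + 1) := Nat.le_mul_of_pos_right _ (by omega)
  by_cases h : r ∣ k + 1
  · have h3 : r ≤ k + 1 := Nat.le_of_dvd (by omega) h
    have h4 : 2 * A ≤ k := by omega
    have h5 : A * (w + 2) * (2 * A) ≤ A * (w + 2) * k := Nat.mul_le_mul_left _ h4
    have h5' : A * (w + 2) * 2 ≤ A * (w + 2) * (2 * A) := Nat.mul_le_mul_left _ (by omega)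
    refine ⟨k + 1 + 1, fun h' => ?_, ?_, ?_, ?_⟩
    · have := Nat.le_of_dvd one_pos ((Nat.dvd_add_right h).1 h')
      omega
    · by_contra h6
      push Not at h6
      have h7 : E * (w + 2) ≤ A * (k + 1 + 1) * (w + 2) := Nat.mul_le_mul_right _ h6
      have h9 : E * (w + 1) ≤ 2 * (A * (w + 2)) := by omega
      have h10 : A * (E * (w + 1)) ≤ A * (2 * (A * (w + 2))) := Nat.mul_le_mul_left _ h9
      have h11 : A * (2 * (A * (w + 2))) = A * (w + 2) * (2 * A) := by ring
      have h12 : 4 * (E * (w + 1)) ≤ A * (E * (w + 1)) := Nat.mul_le_mul_right _ (by omega)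
      omega
    · omega
    · omega
  · refine ⟨k + 1, h, ?_, ?_, ?_⟩
    · by_contra h6
      push Not at h6
      have h7 : E * (w + 2) ≤ A * (k + 1) * (w + 2) := Nat.mul_le_mul_right _ h6
      have h9 : E * (w + 1) ≤ A * (w + 1) + A := by omega
      have h10 : (2 * A + 1) * (w + 1) ≤ E * (w + 1) := Nat.mul_le_mul_right _ (by omega)
      have h11 : (2 * A + 1) * (w + 1) = A * (w + 1) + (A * w + A + w + 1) := by ring
      have h12 : 0 ≤ A * w := Nat.zero_le _
      omega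
    · omega
    · omega

theorem exists_t1' {A D r e u : ℕ} (hr : r.Prime) (hA : 0 < A) (hDA : D + 1 ≤ A) (hAr : 2 * A < r) (hu : 0 < u)
    (hun : u < r ^ e) :
    ∃ t, Nat.Coprime t r ∧ D * r ^ e ≤ A * (t * u % r ^ e) ∧ A * (t * u % r ^ e) < (D + 1) * r ^ e := by
  obtain ⟨j, u0, hu0, rfl⟩ := Nat.exists_eq_pow_mul_and_not_dvd hu.ne' r hr.one_lt.ne'
  have hje : j < e := by
    by_contra h
    push Not at h
    have h1 : r ^ e ≤ r ^ j := Nat.pow_le_pow_right hr.pos h
    have h2 : 0 < u0 := Nat.pos_of_ne_zero (by rintro rfl; simp at hu0)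
    nlinarith [Nat.pow_pos hr.pos (n := j)]
  obtain ⟨f, rfl⟩ : ∃ f, e = f + j := ⟨e - j, by omega⟩
  have hf : 0 < f := by omega
  obtain ⟨y, hy, hyv⟩ := exists_y hr hf hu0
  have hQ : 2 * A < r ^ f := lt_of_lt_of_le hAr (Nat.le_self_pow hf.ne' r)
  obtain ⟨v, hv, h1, h2, h3⟩ := choose1' hr.one_lt hA hDA hQ
  have h4 : v * y * (r ^ j * u0) % r ^ (f + j) = v * r ^ j := by
    rw [show v * y * (r ^ j * u0) = v * y * u0 * r ^ j by ring, pow_add, Nat.mul_mod_mul_right, hyv,
      Nat.mod_eq_of_lt h3]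
  refine ⟨v * y, Nat.Coprime.mul_left ((Nat.Prime.coprime_iff_not_dvd hr).2 hv).symm hy, ?_, ?_⟩
  · rw [h4, pow_add, ← mul_assoc, ← mul_assoc]
    exact Nat.mul_le_mul_right _ h1
  · rw [h4, pow_add, ← mul_assoc, ← mul_assoc]
    exact Nat.mul_lt_mul_of_pos_right h2 (Nat.pow_pos hr.pos)

theorem exists_t2' {A D r f j u u' : ℕ} (hr : r.Prime) (hD : 0 < D) (hA : 4 * D ≤ A) (hAr : 2 * A < r) (hf : 0 < f)
    (hu : ¬ r ∣ u) (hu' : 0 < u') (h1 : 2 * u < r ^ f) (h2 : 2 * u' < r ^ f) (hne : u ≠ u') :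
    ∃ t, Nat.Coprime t r ∧ A * (t * (r ^ j * u) % r ^ (f + j)) < D * r ^ (f + j) ∧
      D * r ^ (f + j) ≤ A * (t * (r ^ j * u') % r ^ (f + j)) ∧
      A * (t * (r ^ j * u') % r ^ (f + j)) + D * r ^ (f + j) ≤ A * r ^ (f + j) := by
  obtain ⟨y, hy, hyv⟩ := exists_y hr hf hu
  have hQ : 2 * A < r ^ f := lt_of_lt_of_le hAr (Nat.le_self_pow hf.ne' r)
  have hyu : ((y * u : ℕ) : ZMod (r ^ f)) = 1 := by
    have h3 := hyv 1
    rw [one_mul] at h3
    have h4 := (ZMod.natCast_eq_natCast_iff' (y * u) 1 (r ^ f)).2 h3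
    rw [h4, Nat.cast_one]
  have hyunit : IsUnit (y : ZMod (r ^ f)) := by
    rw [Nat.cast_mul] at hyu
    exact IsUnit.of_mul_eq_one _ hyu
  set Q := r ^ f with hQdef
  set v := y * u' % Q with hv
  have hvQ : v < Q := Nat.mod_lt _ (by omega)
  have hvc : (v : ZMod Q) = (y : ZMod Q) * u' := by
    rw [hv, ZMod.natCast_mod, Nat.cast_mul]
  have hv0 : v ≠ 0 := by
    intro h
    rw [h, Nat.cast_zero, eq_comm, hyunit.mul_right_eq_zero, ZMod.natCast_eq_zero_iff] at hvc
    have := Nat.le_of_dvd hu' hvc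
    omega
  have hv1 : v ≠ 1 := by
    intro h
    rw [h, Nat.cast_one, ← hyu, Nat.cast_mul, hyunit.mul_right_inj, ZMod.natCast_eq_natCast_iff'] at hvc
    rw [Nat.mod_eq_of_lt (by omega), Nat.mod_eq_of_lt (by omega)] at hvc
    exact hne hvc
  have hv2 : v + 1 ≠ Q := by
    intro h
    have h3 : ((v + 1 : ℕ) : ZMod Q) = 0 := by rw [h, ZMod.natCast_self]
    rw [Nat.cast_add, hvc, Nat.cast_one, ← hyu, Nat.cast_mul, ← mul_add, hyunit.mul_right_eq_zero, ← Nat.cast_add,
      ZMod.natCast_eq_zero_iff] at h3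
    have := Nat.le_of_dvd (by omega) h3
    omega
  have hodd : Q % 2 = 1 := by
    have : Odd r := hr.odd_of_ne_two (by omega)
    exact Nat.odd_iff.1 (this.pow)
  have key : ∃ t, ¬ r ∣ t ∧ A * t < D * Q ∧ D * Q ≤ A * (t * v % Q) ∧ A * (t * v % Q) + D * Q ≤ A * Q := by
    have hDQ0 : Q ≤ D * Q := Nat.le_mul_of_pos_left _ hD
    rcases Nat.lt_or_ge (2 * v) Q with h | h
    · obtain ⟨t, ht, h3, h4, h5⟩ := choose2' (r := r) hD hA hAr hQ (by omega) h
      refine ⟨t, ht, h3, ?_⟩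
      have h6 : t * v < Q := by
        by_contra h7
        push Not at h7
        have := Nat.mul_le_mul_left A h7
        omega
      rw [Nat.mod_eq_of_lt h6]
      exact ⟨h4, h5⟩
    · obtain ⟨t, ht, h3, h4, h5⟩ := choose2' (r := r) (v := Q - v) hD hA hAr hQ (by omega) (by omega)
      refine ⟨t, ht, h3, ?_⟩
      have h6 : t * (Q - v) < Q := by
        by_contra h7
        push Not at h7
        have := Nat.mul_le_mul_left A h7
        omega
      have ht0 : 0 < t := Nat.pos_of_ne_zero (by rintro rfl; simp at ht)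
      have h8 : t * v % Q = Q - t * (Q - v) := by
        have h9 : t * v + t * (Q - v) = t * Q := by rw [← mul_add, Nat.add_sub_cancel' hvQ.le]
        have h10 : t * v = (Q - t * (Q - v)) + Q * (t - 1) := by
          obtain ⟨t', rfl⟩ : ∃ t', t = t' + 1 := ⟨t - 1, by omega⟩
          rw [Nat.add_sub_cancel]
          have h11 : (t' + 1) * Q = Q * t' + Q := by ring
          omega
        rw [h10, Nat.add_mul_mod_self_left]
        exact Nat.mod_eq_of_lt (by
          have : 0 < t * (Q - v) := Nat.mul_pos ht0 (by omega)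
          omega)
      rw [h8]
      have h9 : A * (Q - t * (Q - v)) + A * (t * (Q - v)) = A * Q := by
        rw [← mul_add, Nat.sub_add_cancel h6.le]
      omega
  obtain ⟨t, ht, h3, h4, h5⟩ := key
  have htc : Nat.Coprime t r := ((Nat.Prime.coprime_iff_not_dvd hr).2 ht).symm
  have hrj : 0 < r ^ j := Nat.pow_pos hr.pos
  have ht' : t < Q := by
    by_contra h7
    have h8 := Nat.mul_le_mul_left A (not_lt.1 h7)
    have h9 := Nat.mul_le_mul_right Q hA
    rw [mul_assoc] at h9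
    omega
  have e1 : t * y * (r ^ j * u) % r ^ (f + j) = t * r ^ j := by
    rw [show t * y * (r ^ j * u) = t * y * u * r ^ j by ring, pow_add, Nat.mul_mod_mul_right, hyv,
      Nat.mod_eq_of_lt ht']
  have e2 : t * y * (r ^ j * u') % r ^ (f + j) = (t * v % Q) * r ^ j := by
    rw [show t * y * (r ^ j * u') = t * (y * u') * r ^ j by ring, pow_add, Nat.mul_mod_mul_right, hv,
      Nat.mul_mod_mod]
  refine ⟨t * y, Nat.Coprime.mul_left htc hy, ?_, ?_, ?_⟩
  · rw [e1, pow_add, ← mul_assoc, ← mul_assoc]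
    exact Nat.mul_lt_mul_of_pos_right h3 hrj
  · rw [e2, pow_add, ← mul_assoc, ← mul_assoc]
    exact Nat.mul_le_mul_right _ h4
  · rw [e2, pow_add, ← mul_assoc, ← mul_assoc, ← mul_assoc, ← add_mul]
    exact Nat.mul_le_mul_right _ h5

end window

section spectrum
variable {ι : Type} [Fintype ι]

/-- the floor -/
theorem fl' {A : ℤ} (hA : 0 < A) (z : ℤ) {n s : ℕ} (hs : s < n) :
    ⌊(z : ℚ) / A + (s : ℚ) / n⌋ = z / A + if A * n ≤ (z % A) * n + s * A then 1 else 0 := by
  have hA' : (0 : ℚ) < A := by exact_mod_cast hA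
  have hn : (0 : ℚ) < n := by exact_mod_cast (by omega : 0 < n)
  have h0 := Int.emod_nonneg z hA.ne'
  have h1 := Int.emod_lt_of_pos z hA
  have h2 := Int.mul_ediv_add_emod z A
  set q := z / A
  set c := z % A
  have h3 : (z : ℚ) / A = q + c / A := by
    rw [← h2]
    push_cast
    field_simp
  have hs' : (s : ℚ) < n := by exact_mod_cast hs
  have h0' : (0 : ℚ) ≤ c := by exact_mod_cast h0
  have h1' : (c : ℚ) < A := by exact_mod_cast h1
  have h4 : (s : ℚ) / n < 1 := (div_lt_one hn).2 hs'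
  have h5 : (0 : ℚ) ≤ s / n := by positivity
  have h6 : (c : ℚ) / A < 1 := (div_lt_one hA').2 h1'
  have h7 : (0 : ℚ) ≤ c / A := by positivity
  have h8 : (c : ℚ) / A + s / n = (c * n + s * A) / (A * n) := by field_simp
  rw [h3, add_assoc, Int.floor_intCast_add]
  congr 1
  split_ifs with h
  · rw [Int.floor_eq_iff]
    constructor
    · rw [h8, le_div_iff₀ (by positivity)]
      push_cast
      rw [one_mul]
      exact_mod_cast h
    · push_cast
      linarith
  · rw [Int.floor_eq_iff]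
    constructor
    · push_cast
      positivity
    · rw [h8]
      push_cast
      rw [zero_add, div_lt_one (by positivity)]
      push Not at h
      exact_mod_cast h

/-- the number of carries -/
def cz (z : ι → ℤ) (A : ℤ) (n s : ℕ) : ℕ := (Finset.univ.filter fun i => A * n ≤ (z i % A) * n + s * A).card

variable {y : ι → ℚ} {z : ι → ℤ} {A : ℤ}

theorem moment' (hA : 0 < A) (hz : ∀ i, y i = z i / A) {n s : ℕ} (hs : s < n) :
    ∑ i, ⌊y i + (s : ℚ) / n⌋ = ∑ i, z i / A + cz z A n s := by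
  rw [Finset.sum_congr rfl fun i _ => by rw [hz i, fl' hA (z i) hs], Finset.sum_add_distrib, cz, Finset.card_filter]
  push_cast
  rfl

theorem shift' (hA : 0 < A) (hz : ∀ i, y i = z i / A) {n s s' : ℕ} (hs : s < n) (hs' : s' < n) {w : ℤ}
    (h : ∀ q, num y n s q = num y n s' (w + q)) : (cz z A n s : ℤ) = cz z A n s' - w * Fintype.card ι := by
  have h1 := sum_of_card Finset.univ (fun i => ⌊y i + (s : ℚ) / n⌋) (fun i => ⌊y i + (s' : ℚ) / n⌋ - w) (fun q => by
      have := h q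
      unfold num at this
      rw [this]
      congr 1
      refine Finset.filter_congr fun i _ => ?_
      constructor <;> intro h <;> linarith)
  rw [Finset.sum_sub_distrib, moment' hA hz hs, moment' hA hz hs', Finset.sum_const, nsmul_eq_mul, Finset.card_univ] at h1
  linarith

theorem refl' (hA : 0 < A) (hz : ∀ i, y i = z i / A) {n s s' : ℕ} (hs : s < n) (hs' : s' < n) {w : ℤ}
    (h : ∀ q, num y n s q = num y n s' (w - q)) :
    2 * ∑ i, z i / A + cz z A n s + cz z A n s' = w * Fintype.card ι := by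
  have h1 := sum_of_card Finset.univ (fun i => ⌊y i + (s : ℚ) / n⌋) (fun i => w - ⌊y i + (s' : ℚ) / n⌋) (fun q => by
      have := h q
      unfold num at this
      rw [this]
      congr 1
      refine Finset.filter_congr fun i _ => ?_
      constructor <;> intro h <;> linarith)
  rw [Finset.sum_sub_distrib, moment' hA hz hs, moment' hA hz hs', Finset.sum_const, nsmul_eq_mul, Finset.card_univ] at h1
  linarith

/-- the symmetry -/
theorem symm_mod (hA : 0 < A) {σ : Equiv.Perm ι} {m : ℤ} (hσ : ∀ i, z (σ i) = m * A - z i) (h0 : ∀ i, z i % A ≠ 0)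
    (i : ι) : z (σ i) / A = (m - 1) - z i / A ∧ z (σ i) % A = A - z i % A := by
  have h1 := Int.emod_nonneg (z i) hA.ne'
  have h2 := Int.emod_lt_of_pos (z i) hA
  have h3 := Int.mul_ediv_add_emod (z i) A
  have h4 : z (σ i) = (A - z i % A) + A * ((m - 1) - z i / A) := by
    rw [hσ]
    linarith
  have h5 := h0 i
  rw [h4]
  constructor
  · rw [Int.add_mul_ediv_left _ _ hA.ne', Int.ediv_eq_zero_of_lt (by omega) (by omega), zero_add]
  · rw [Int.add_mul_emod_self_left]
    exact Int.emod_eq_of_lt (by omega) (by omega)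

theorem two_sum (hA : 0 < A) {σ : Equiv.Perm ι} {m : ℤ} (hσ : ∀ i, z (σ i) = m * A - z i) (h0 : ∀ i, z i % A ≠ 0) :
    2 * ∑ i, z i / A = (m - 1) * Fintype.card ι := by
  have h1 : ∑ i, z i / A = ∑ i, ((m - 1) - z i / A) := by
    rw [← Equiv.sum_comp σ (fun i => z i / A)]
    exact Finset.sum_congr rfl fun i _ => (symm_mod hA hσ h0 i).1
  rw [Finset.sum_sub_distrib, Finset.sum_const, nsmul_eq_mul, Finset.card_univ] at h1
  linarith

theorem cz_zero {D : ℤ} (hhigh : ∀ i, z i % A ≤ A - D) {n s : ℕ} (h : A * s < D * n) : cz z A n s = 0 := by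
  rw [cz, Finset.card_eq_zero, Finset.filter_eq_empty_iff]
  intro i _ hi
  have h2 : (z i % A) * n ≤ (A - D) * n := mul_le_mul_of_nonneg_right (hhigh i) (by positivity)
  nlinarith

theorem cz_one {D : ℤ} (hhigh : ∀ i, z i % A ≤ A - D) {n s : ℕ} (h : D * n ≤ A * s)
    (h' : A * s < (D + 1) * n) : cz z A n s = (Finset.univ.filter fun i => z i % A = A - D).card := by
  rw [cz]
  congr 1
  refine Finset.filter_congr fun i _ => ?_
  constructor
  · intro h2
    by_contra h3
    have h5 := hhigh i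
    have h4 : (z i % A) * n ≤ (A - D - 1) * n := mul_le_mul_of_nonneg_right (by omega) (by positivity)
    nlinarith
  · intro h2
    rw [h2]
    nlinarith

theorem cz_mid {D : ℤ} (hD : 0 < D) (hDA : D < A) {i0 i1 : ι} (hi0 : z i0 % A = D) (hi1 : z i1 % A = A - D) {n s : ℕ}
    (hn : IsCoprime A (n : ℤ)) (h : D * n ≤ A * s) (h' : A * s + D * n ≤ A * n) :
    0 < cz z A n s ∧ cz z A n s < Fintype.card ι := by
  constructor
  · rw [cz, Finset.card_pos]
    refine ⟨i1, Finset.mem_filter.2 ⟨Finset.mem_univ _, ?_⟩⟩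
    rw [hi1]
    nlinarith
  · rw [cz, ← Finset.card_univ]
    refine Finset.card_lt_card (Finset.filter_ssubset.2 ⟨i0, Finset.mem_univ _, ?_⟩)
    rw [hi0]
    intro h2
    have h3 : A * s = (A - D) * n := by nlinarith
    have h4 : A ∣ (A - D) * n := ⟨s, h3.symm⟩
    have h5 : A ∣ A - D := hn.dvd_of_dvd_mul_right h4
    have := Int.le_of_dvd (by omega) h5
    omega

end spectrum

end Pool.Agent.Helper35.KN

namespace Pool.Agent.Helper79.KN

open Pool.Agent.Helper35.KN

/-- E'' -/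
theorem isSep_towerNum {n : Type} [Fintype n] (y : n → ℚ) (A r e : ℕ) (hy : IsSpectrum y A) (hr : r.Prime) (he : 0 < e)
    (hA : 2 * A < r) : IsSep (towerNum y r e) := by
  obtain ⟨hpos, hden, hnon, ⟨σ, m, hσ⟩, δ, hδ4, hδ, ⟨i0, hi0⟩, hδc⟩ := hy
  choose z hz using hden
  have hA0 : (0 : ℤ) < A := by exact_mod_cast hpos
  have hAq : (0 : ℚ) < A := by exact_mod_cast hpos
  have hyz : ∀ i, y i = z i / ((A : ℤ) : ℚ) := fun i => by
    rw [eq_div_iff (by exact_mod_cast hpos.ne'), mul_comm]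
    push_cast
    exact hz i
  have hfr : ∀ i, Int.fract (y i) = ((z i % (A : ℤ) : ℤ) : ℚ) / A := by
    intro i
    have h1 := Int.emod_nonneg (z i) hA0.ne'
    have h2 := Int.emod_lt_of_pos (z i) hA0
    have h3 := Int.mul_ediv_add_emod (z i) (A : ℤ)
    rw [Int.fract_eq_iff]
    refine ⟨by positivity, ?_, ⟨z i / (A : ℤ), ?_⟩⟩
    · rw [div_lt_one hAq]
      exact_mod_cast h2
    · have h4 : (((A : ℤ) * (z i / (A : ℤ)) + z i % (A : ℤ) : ℤ) : ℚ) = z i := by rw [h3]
      have h5 : y i = ((A : ℚ) * ((z i / (A : ℤ) : ℤ) : ℚ) + ((z i % (A : ℤ) : ℤ) : ℚ)) / A := by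
        rw [hyz i, ← h4, Int.cast_add, Int.cast_mul, Int.cast_natCast]
      rw [h5, add_div, add_sub_cancel_right, mul_div_cancel_left₀ _ hAq.ne']
  have h0 : ∀ i, z i % (A : ℤ) ≠ 0 := by
    intro i hi
    have h1 := hfr i
    rw [hi, Int.cast_zero, zero_div, Int.fract_eq_zero_iff] at h1
    obtain ⟨w, hw⟩ := h1
    exact hnon i w hw.symm
  have hσz : ∀ i, z (σ i) = m * A - z i := by
    intro i
    have h1 := hσ i
    rw [hyz, hyz, div_eq_iff (by exact_mod_cast hpos.ne'), sub_mul, div_mul_cancel₀ _ (by exact_mod_cast hpos.ne')] at h1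
    exact_mod_cast h1
  set D : ℤ := z i0 % (A : ℤ) with hD
  have hDpos : 0 < D := lt_of_le_of_ne (Int.emod_nonneg (z i0) hA0.ne') (h0 i0).symm
  have hδD : δ = D / A := by rw [← hi0, hfr]
  have hD4 : 4 * D ≤ A := by
    rw [hδD, ← mul_div_assoc, div_le_one hAq] at hδ4
    exact_mod_cast hδ4
  have hlow : ∀ i, D ≤ z i % (A : ℤ) := by
    intro i
    have h1 := hδ i
    rw [hfr, hδD, div_le_div_iff_of_pos_right hAq] at h1
    exact_mod_cast h1
  have hhigh : ∀ i, z i % (A : ℤ) ≤ A - D := by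
    intro i
    have h1 := hlow (σ i)
    rw [(symm_mod hA0 hσz h0 i).2] at h1
    omega
  have hi1 : z (σ i0) % (A : ℤ) = A - D := (symm_mod hA0 hσz h0 i0).2
  have hcard : (Finset.univ.filter fun i => z i % (A : ℤ) = A - D).card =
      (Finset.univ.filter fun i => Int.fract (y i) = δ).card := by
    refine Finset.card_bij' (fun i _ => σ.symm i) (fun i _ => σ i) ?_ ?_ ?_ ?_
    · intro i hi
      rw [Finset.mem_filter] at hi ⊢
      refine ⟨Finset.mem_univ _, ?_⟩
      have h1 := (symm_mod hA0 hσz h0 (σ.symm i)).2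
      rw [σ.apply_symm_apply, hi.2] at h1
      rw [hfr, hδD, show z (σ.symm i) % (A : ℤ) = D by omega]
    · intro i hi
      rw [Finset.mem_filter] at hi ⊢
      refine ⟨Finset.mem_univ _, ?_⟩
      have h2 := hi.2
      rw [hfr, hδD, div_left_inj' hAq.ne'] at h2
      rw [(symm_mod hA0 hσz h0 i).2, show z i % (A : ℤ) = D by exact_mod_cast h2]
    · intro i _
      simp
    · intro i _
      simp
  have hn : 0 < r ^ e := Nat.pow_pos hr.pos
  obtain ⟨D', hD'⟩ : ∃ D' : ℕ, (D' : ℤ) = D := ⟨D.toNat, Int.toNat_of_nonneg hDpos.le⟩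
  have hD'0 : 0 < D' := by omega
  have hD'4 : 4 * D' ≤ A := by omega
  have hcop : IsCoprime (A : ℤ) ((r ^ e : ℕ) : ℤ) := by
    rw [Nat.isCoprime_iff_coprime]
    refine Nat.Coprime.pow_right _ ?_
    rw [Nat.coprime_comm, Nat.Prime.coprime_iff_not_dvd hr]
    intro h
    have := Nat.le_of_dvd hpos h
    omega
  have h2sum := two_sum hA0 hσz h0
  have key1 : ∀ (c N : ℕ) (x : ℤ), 0 < c → c < N → (c : ℤ) ≠ x * N := by
    intro c N x h1 h2 h3
    have h4 : (N : ℤ) ∣ c := ⟨x, by rw [h3, mul_comm]⟩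
    have h5 := Int.le_of_dvd (by exact_mod_cast h1) h4
    omega
  constructor
  · rintro ⟨u, hu, hu2⟩
    obtain ⟨t, ht, h1, h2⟩ := exists_t1' (A := A) (D := D') (e := e) (u := u) hr hpos (by omega) hA hu (by omega)
    refine ⟨⟨t, ht⟩, fun w => ?_⟩
    by_contra hc
    push Not at hc
    have h3 := refl' hA0 hyz (Nat.mod_lt _ hn) (Nat.mod_lt _ hn) (w := w) hc
    have h4 : cz z A (r ^ e) (t * u % r ^ e) = (Finset.univ.filter fun i => z i % (A : ℤ) = A - D).card := by
      refine cz_one hhigh ?_ ?_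
      · rw [← hD']
        exact_mod_cast h1
      · rw [← hD']
        exact_mod_cast h2
    have h5 : 0 < (Finset.univ.filter fun i => z i % (A : ℤ) = A - D).card :=
      Finset.card_pos.2 ⟨σ i0, Finset.mem_filter.2 ⟨Finset.mem_univ _, hi1⟩⟩
    rw [h2sum, h4] at h3
    rw [← hcard] at hδc
    refine key1 (2 * (Finset.univ.filter fun i => z i % (A : ℤ) = A - D).card) (Fintype.card n) (w - (m - 1))
      (by omega) hδc ?_
    push_cast
    linarith
  · rintro ⟨u, hu, hu2⟩ ⟨u', hu', hu2'⟩ hne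
    have hne' : u ≠ u' := fun h => hne (Subtype.ext h)
    have key : ∀ u u' : ℕ, 0 < u → 2 * u < r ^ e → 0 < u' → 2 * u' < r ^ e → u ≠ u' → ∀ j u0 u1 : ℕ, ¬ r ∣ u0 →
        u = r ^ j * u0 → u' = r ^ j * u1 → ∃ t : ℕ, Nat.Coprime t r ∧
          cz z A (r ^ e) (t * u % r ^ e) = 0 ∧ 0 < cz z A (r ^ e) (t * u' % r ^ e) ∧
            cz z A (r ^ e) (t * u' % r ^ e) < Fintype.card n := by
      rintro u u' h1 h2 h3 h4 h5 j u0 u1 h6 rfl rfl
      have hrj : 0 < r ^ j := Nat.pow_pos hr.pos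
      have hu0 : 0 < u0 := Nat.pos_of_ne_zero (by rintro rfl; simp at h6)
      have hje : j < e := by
        by_contra h
        push Not at h
        have h7 : r ^ e ≤ r ^ j := Nat.pow_le_pow_right hr.pos h
        nlinarith
      obtain ⟨f, rfl⟩ : ∃ f, e = f + j := ⟨e - j, by omega⟩
      have e1 : ∀ x, 2 * (r ^ j * x) < r ^ (f + j) → 2 * x < r ^ f := by
        intro x hx
        rw [pow_add, show 2 * (r ^ j * x) = (2 * x) * r ^ j by ring] at hx
        exact Nat.lt_of_mul_lt_mul_right hx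
      obtain ⟨t, ht, h7, h8, h9⟩ := exists_t2' (A := A) (D := D') (j := j) (u := u0) (u' := u1) hr hD'0 hD'4 hA
        (by omega : 0 < f) h6 (Nat.pos_of_ne_zero (by rintro rfl; simp at h3)) (e1 _ h2) (e1 _ h4)
        (by rintro rfl; exact h5 rfl)
      refine ⟨t, ht, cz_zero hhigh ?_, cz_mid hDpos (by omega) hD.symm hi1 hcop ?_ ?_⟩
      · rw [← hD']
        exact_mod_cast h7
      · rw [← hD']
        exact_mod_cast h8
      · rw [← hD']
        exact_mod_cast h9
    have fin : ∀ s s' : ℕ, s < r ^ e → s' < r ^ e →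
        ((cz z A (r ^ e) s = 0 ∧ 0 < cz z A (r ^ e) s' ∧ cz z A (r ^ e) s' < Fintype.card n) ∨
          (cz z A (r ^ e) s' = 0 ∧ 0 < cz z A (r ^ e) s ∧ cz z A (r ^ e) s < Fintype.card n)) → ∀ w : ℤ,
        (∃ q, num y (r ^ e) s q ≠ num y (r ^ e) s' (w + q)) ∧ ∃ q, num y (r ^ e) s q ≠ num y (r ^ e) s' (w - q) := by
      intro s s' hs hs' hcc w
      constructor
      · by_contra hc
        push Not at hc
        have h1 := shift' hA0 hyz hs hs' hc
        rcases hcc with ⟨h2, h3, h4⟩ | ⟨h2, h3, h4⟩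
        · exact key1 _ _ w h3 h4 (by rw [h2] at h1; push_cast at h1; linarith)
        · exact key1 _ _ (-w) h3 h4 (by rw [h2] at h1; push_cast at h1; linarith)
      · by_contra hc
        push Not at hc
        have h1 := refl' hA0 hyz hs hs' hc
        rw [h2sum] at h1
        rcases hcc with ⟨h2, h3, h4⟩ | ⟨h2, h3, h4⟩
        · exact key1 _ _ (w - (m - 1)) h3 h4 (by rw [h2] at h1; push_cast at h1; linarith)
        · exact key1 _ _ (w - (m - 1)) h3 h4 (by rw [h2] at h1; push_cast at h1; linarith)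
    obtain ⟨j, u0, hu0, hj⟩ := Nat.exists_eq_pow_mul_and_not_dvd hu.ne' r hr.one_lt.ne'
    obtain ⟨j', u0', hu0', hj'⟩ := Nat.exists_eq_pow_mul_and_not_dvd hu'.ne' r hr.one_lt.ne'
    rcases le_total j j' with h | h
    · obtain ⟨i, rfl⟩ := Nat.exists_eq_add_of_le h
      obtain ⟨t, ht, h1⟩ := key u u' hu hu2 hu' hu2' hne' j u0 (r ^ i * u0') hu0 hj (by rw [hj', pow_add, mul_assoc])
      exact ⟨⟨t, ht⟩, fin _ _ (Nat.mod_lt _ hn) (Nat.mod_lt _ hn) (Or.inl h1)⟩
    · obtain ⟨i, rfl⟩ := Nat.exists_eq_add_of_le h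
      obtain ⟨t, ht, h1⟩ := key u' u hu' hu2' hu hu2 hne'.symm j' u0' (r ^ i * u0) hu0' hj'
        (by rw [hj, pow_add, mul_assoc])
      exact ⟨⟨t, ht⟩, fin _ _ (Nat.mod_lt _ hn) (Nat.mod_lt _ hn) (Or.inr h1)⟩

end Pool.Agent.Helper79.KN
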