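import Pool.Agent.Helper35.KN.Sep

/-!
KN: a unit modulo `r ^ e` which moves given residues out of a short interval (union bound).
-/

set_option autoImplicit false

namespace Pool.Agent.Helper35.KN

open Finset

/-- the number of the multiples in a short interval -/
theorem count_low {r e u k : ℕ} (hr : r.Prime) (hk : 0 < k) (hu : 0 < u) (hun : u < r ^ e) :
    2 * k * ((range (r ^ e)).filter fun t => 0 < t * u % r ^ e ∧ 2 * k * (t * u % r ^ e) < r ^ e).card ≤ r ^ e := by
  classical
  obtain ⟨j, u0, hu0, rfl⟩ := Nat.exists_eq_pow_mul_and_not_dvd hu.ne' r hr.one_lt.ne'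
  have hrj : 0 < r ^ j := Nat.pow_pos hr.pos
  have hje : j < e := by
    by_contra h
    push Not at h
    have h1 : r ^ e ≤ r ^ j := Nat.pow_le_pow_right hr.pos h
    have h2 : 0 < u0 := Nat.pos_of_ne_zero (by rintro rfl; simp at hu0)
    nlinarith
  obtain ⟨f, rfl⟩ : ∃ f, e = f + j := ⟨e - j, by omega⟩
  have hf : 0 < f := by omega
  have hQ0 : 0 < r ^ f := Nat.pow_pos hr.pos
  have hcop : Nat.Coprime (r ^ f) u0 := Nat.Coprime.pow_left _ ((Nat.Prime.coprime_iff_not_dvd hr).2 hu0)
  have hmod : ∀ t, t * (r ^ j * u0) % r ^ (f + j) = (t * u0 % r ^ f) * r ^ j := by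
    intro t
    rw [show t * (r ^ j * u0) = t * u0 * r ^ j by ring, pow_add, Nat.mul_mod_mul_right]
  set S := (range (r ^ (f + j))).filter fun t => 0 < t * (r ^ j * u0) % r ^ (f + j) ∧
    2 * k * (t * (r ^ j * u0) % r ^ (f + j)) < r ^ (f + j) with hS
  have h1 : S.card ≤ r ^ j * (S.image fun t => t * u0 % r ^ f).card := by
    refine Finset.card_le_mul_card_image S (r ^ j) fun b _ => ?_
    rw [← Finset.card_range (r ^ j)]
    refine Finset.card_le_card_of_injOn (fun t => t / r ^ f) ?_ ?_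
    · intro t ht
      rw [Finset.mem_coe, Finset.mem_filter, hS, Finset.mem_filter, Finset.mem_range] at ht
      rw [Finset.mem_coe, Finset.mem_range]
      rw [Nat.div_lt_iff_lt_mul hQ0, mul_comm, ← pow_add]
      exact ht.1.1
    · intro t ht t' ht' htt
      rw [Finset.mem_coe, Finset.mem_filter] at ht ht'
      have h2 : t * u0 ≡ t' * u0 [MOD r ^ f] := ht.2.trans ht'.2.symm
      have h3 : t ≡ t' [MOD r ^ f] := Nat.ModEq.cancel_right_of_coprime hcop h2
      have h4 := Nat.div_add_mod t (r ^ f)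
      have h5 := Nat.div_add_mod t' (r ^ f)
      have h6 : t / r ^ f = t' / r ^ f := htt
      have h3' : t % r ^ f = t' % r ^ f := h3
      rw [h6, h3'] at h4
      rw [← h4]
      exact h5
  have h2 : (S.image fun t => t * u0 % r ^ f) ⊆ Finset.Ioc 0 (r ^ f / (2 * k)) := by
    intro v hv
    rw [Finset.mem_image] at hv
    obtain ⟨t, ht, rfl⟩ := hv
    rw [hS, Finset.mem_filter, hmod] at ht
    obtain ⟨-, h3, h4⟩ := ht
    rw [Finset.mem_Ioc]
    refine ⟨Nat.pos_of_mul_pos_right h3, ?_⟩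
    rw [Nat.le_div_iff_mul_le (by omega)]
    rw [← mul_assoc, pow_add] at h4
    have := Nat.lt_of_mul_lt_mul_right h4
    rw [mul_comm]
    exact this.le
  have h3 := Finset.card_le_card h2
  rw [Nat.card_Ioc, Nat.sub_zero] at h3
  calc 2 * k * S.card ≤ 2 * k * (r ^ j * (r ^ f / (2 * k))) := Nat.mul_le_mul_left _ (h1.trans (Nat.mul_le_mul_left _ h3))
    _ = r ^ j * (2 * k * (r ^ f / (2 * k))) := by ring
    _ ≤ r ^ j * r ^ f := Nat.mul_le_mul_left _ (Nat.mul_div_le _ _)
    _ = r ^ (f + j) := by rw [pow_add, mul_comm]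

theorem count_high {r e u k : ℕ} (hr : r.Prime) (hk : 0 < k) (hu : 0 < u) (hun : u < r ^ e) :
    2 * k * ((range (r ^ e)).filter fun t => 0 < t * u % r ^ e ∧ 2 * k * (r ^ e - t * u % r ^ e) < r ^ e).card ≤
      r ^ e := by
  classical
  refine le_trans (Nat.mul_le_mul_left _ (Finset.card_le_card ?_)) (count_low (u := r ^ e - u) (k := k) hr hk (by omega) (by omega))
  intro t ht
  rw [Finset.mem_filter] at ht ⊢
  obtain ⟨h0, h1, h2⟩ := ht
  have hn : 0 < r ^ e := by omega
  have h3 : t * (r ^ e - u) % r ^ e = r ^ e - t * u % r ^ e := by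
    have h4 : t * (r ^ e - u) + t * u = r ^ e * t := by
      rw [← mul_add, Nat.sub_add_cancel hun.le, mul_comm]
    have h5 := Nat.div_add_mod (t * u) (r ^ e)
    have h6 := Nat.mod_lt (t * u) hn
    have h7 : t * u / r ^ e < t := by
      rw [Nat.div_lt_iff_lt_mul hn]
      have ht0 : 0 < t := Nat.pos_of_ne_zero (by rintro rfl; simp at h1)
      exact Nat.mul_lt_mul_of_pos_left hun ht0
    have h8 : t * (r ^ e - u) = (r ^ e - t * u % r ^ e) + r ^ e * (t - t * u / r ^ e - 1) := by
      obtain ⟨w, hw⟩ : ∃ w, t = t * u / r ^ e + 1 + w := ⟨t - t * u / r ^ e - 1, by omega⟩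
      have h9 : t - t * u / r ^ e - 1 = w := by omega
      rw [h9]
      have h10 : r ^ e * t = r ^ e * (t * u / r ^ e) + r ^ e + r ^ e * w := by
        conv_lhs => rw [hw]
        ring
      omega
    rw [h8, Nat.add_mul_mod_self_left]
    exact Nat.mod_eq_of_lt (by omega)
  rw [h3]
  have h4 := Nat.mod_lt (t * u) hn
  exact ⟨h0, by omega, h2⟩

/-- the number of the multiples of `r` -/
theorem count_r {r e : ℕ} (hr : r.Prime) (he : 0 < e) : r * ((range (r ^ e)).filter fun t => r ∣ t).card = r ^ e := by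
  obtain ⟨f, rfl⟩ : ∃ f, e = f + 1 := ⟨e - 1, by omega⟩
  have h1 : ((range (r ^ (f + 1))).filter fun t => r ∣ t) = (range (r ^ f)).map ⟨fun v => r * v, fun _ _ h => Nat.eq_of_mul_eq_mul_left hr.pos h⟩ := by
    ext t
    rw [Finset.mem_filter, Finset.mem_range, Finset.mem_map]
    constructor
    · rintro ⟨h1, v, rfl⟩
      refine ⟨v, ?_, rfl⟩
      rw [Finset.mem_range]
      rw [pow_succ, mul_comm] at h1
      exact Nat.lt_of_mul_lt_mul_right h1
    · rintro ⟨v, hv, rfl⟩
      rw [Finset.mem_range] at hv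
      refine ⟨?_, Dvd.intro _ rfl⟩
      show r * v < r ^ (f + 1)
      rw [pow_succ, mul_comm]
      exact Nat.mul_lt_mul_of_pos_right hv hr.pos
  rw [h1, Finset.card_map, Finset.card_range, pow_succ, mul_comm]

/-- **the union bound** -/
theorem exists_unit {r e k : ℕ} (hr : r.Prime) (h2 : 2 < r) (he : 0 < e) (u : Fin k → ℕ) (b : Fin k → Bool)
    (hu : ∀ j, 0 < u j) (hun : ∀ j, u j < r ^ e) :
    ∃ t, Nat.Coprime t r ∧ ∀ j, if b j then r ^ e ≤ 2 * k * (r ^ e - t * u j % r ^ e) else r ^ e ≤ 2 * k * (t * u j % r ^ e) := by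
  classical
  rcases Nat.eq_zero_or_pos k with rfl | hk
  · exact ⟨1, by simp, fun j => j.elim0⟩
  by_contra hc
  push Not at hc
  let Bad : Fin k → Finset ℕ := fun j => if b j then
    (range (r ^ e)).filter fun t => 0 < t * u j % r ^ e ∧ 2 * k * (r ^ e - t * u j % r ^ e) < r ^ e
    else (range (r ^ e)).filter fun t => 0 < t * u j % r ^ e ∧ 2 * k * (t * u j % r ^ e) < r ^ e
  have hbad : ∀ j, 2 * k * (Bad j).card ≤ r ^ e := by
    intro j
    by_cases hb : b j
    · simp only [Bad, hb, if_true]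
      exact count_high hr hk (hu j) (hun j)
    · simp only [Bad, hb]
      exact count_low hr hk (hu j) (hun j)
  have hcov : range (r ^ e) ⊆ ((range (r ^ e)).filter fun t => r ∣ t) ∪ Finset.univ.biUnion Bad := by
    intro t ht
    rw [Finset.mem_union]
    by_cases hrt : r ∣ t
    · exact Or.inl (Finset.mem_filter.2 ⟨ht, hrt⟩)
    right
    have hcop : Nat.Coprime t r := ((Nat.Prime.coprime_iff_not_dvd hr).2 hrt).symm
    obtain ⟨j, hj⟩ := hc t hcop
    rw [Finset.mem_biUnion]
    refine ⟨j, Finset.mem_univ _, ?_⟩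
    have h0 : 0 < t * u j % r ^ e := by
      refine Nat.pos_of_ne_zero fun h => ?_
      have h3 : r ^ e ∣ t * u j := Nat.dvd_of_mod_eq_zero h
      have h4 : r ^ e ∣ u j := (Nat.Coprime.pow_left e hcop.symm).dvd_of_dvd_mul_left h3
      have := Nat.le_of_dvd (hu j) h4
      have := hun j
      omega
    by_cases hb : b j
    · simp only [hb, if_true, not_le] at hj
      simp only [Bad, hb, if_true]
      exact Finset.mem_filter.2 ⟨ht, h0, hj⟩
    · simp only [hb] at hj
      simp only [Bad, hb]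
      exact Finset.mem_filter.2 ⟨ht, h0, by simpa using hj⟩
  have h3 := (Finset.card_le_card hcov).trans ((Finset.card_union_le _ _).trans (Nat.add_le_add_left Finset.card_biUnion_le _))
  rw [Finset.card_range] at h3
  have h4 : 2 * k * ∑ j, (Bad j).card ≤ k * r ^ e := by
    rw [Finset.mul_sum]
    refine (Finset.sum_le_sum fun j _ => hbad j).trans ?_
    simp
  have h5 : 2 * ∑ j, (Bad j).card ≤ r ^ e := by
    have h6 : k * (2 * ∑ j, (Bad j).card) ≤ k * r ^ e := by
      calc k * (2 * ∑ j, (Bad j).card) = 2 * k * ∑ j, (Bad j).card := by ring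
        _ ≤ _ := h4
    exact Nat.le_of_mul_le_mul_left h6 hk
  have h6 := count_r hr he
  have h7 : 3 * ((range (r ^ e)).filter fun t => r ∣ t).card ≤ r ^ e := (Nat.mul_le_mul_right _ h2).trans h6.le
  have h8 : 0 < r ^ e := Nat.pow_pos hr.pos
  omega

end Pool.Agent.Helper35.KN
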